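import Mathlib
import Pool.Agent.H602R3.DHJ.Main
import Pool.Agent.R558.FixedWords

/-!
# MP_0430e4_lc: abelian codes of large p-rank are asymptotically bad

For every odd prime `p`, a family of binary abelian codes (codes invariant under a transitive
commutative group `G` of permutations of the coordinates) whose rates and relative distances are
bounded below has bounded `p`-rank. The rest of the group is arbitrary. The proof combines the
density Hales-Jewett theorem with the Fourier transform over the algebraic closure of `𝔽₂`: a dense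
set of characters contains a coset of `(ℤ/p)^m`, and the sum of these characters is a code word
supported on a subgroup of index `p^m`.
-/


namespace Pool.Agent.Results.MP_0430e4_lc.AbelianRank

open Finset Pool.Agent.H602R3.DHJ Pool.Agent.R558

/-- The algebraic closure of the field with two elements. -/
abbrev K : Type := AlgebraicClosure (ZMod 2)

section Odd

variable {Q : Type} [CommGroup Q] [Fintype Q]

/-- The span over `K` of a binary code. -/
noncomputable def ext (C : Submodule (ZMod 2) (Q → ZMod 2)) : Submodule K (Q → K) :=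
  Submodule.span K {f | ∃ c ∈ C, f = fun x => algebraMap (ZMod 2) K (c x)}

omit [CommGroup Q] [Fintype Q] in
lemma descend (C : Submodule (ZMod 2) (Q → ZMod 2)) (f : Q → K)
    (hf : f ∈ ext C) : ∀ φ : K →ₗ[ZMod 2] ZMod 2, (fun x => φ (f x)) ∈ C := by
  induction hf using Submodule.span_induction with
  | mem f hf =>
    intro φ
    obtain ⟨c, hc, rfl⟩ := hf
    have : (fun x => φ (algebraMap (ZMod 2) K (c x))) = (φ 1) • c := by
      funext x
      rw [Algebra.algebraMap_eq_smul_one, map_smul, Pi.smul_apply, smul_eq_mul, smul_eq_mul,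
        mul_comm]
    rw [this]
    exact C.smul_mem _ hc
  | zero =>
    intro φ
    have : (fun x : Q => φ ((0 : Q → K) x)) = 0 := by
      funext x
      simp
    rw [this]
    exact C.zero_mem
  | add f g _ _ hf hg =>
    intro φ
    have : (fun x => φ ((f + g) x)) = (fun x => φ (f x)) + fun x => φ (g x) := by
      funext x
      simp
    rw [this]
    exact C.add_mem (hf φ) (hg φ)
  | smul a f hf ih =>
    intro φ
    exact ih (φ ∘ₗ LinearMap.mulLeft (ZMod 2) a)

omit [CommGroup Q] in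
lemma finrank_le_ext (C : Submodule (ZMod 2) (Q → ZMod 2)) :
    Module.finrank (ZMod 2) C ≤ Module.finrank K (ext C) := by
  let b := Module.finBasis (ZMod 2) C
  let v : Fin (Module.finrank (ZMod 2) C) → ext C := fun i =>
    ⟨fun x => algebraMap (ZMod 2) K ((b i).1 x), Submodule.subset_span ⟨_, (b i).2, rfl⟩⟩
  have hv : LinearIndependent K v := by
    rw [Fintype.linearIndependent_iff]
    intro a ha i
    rw [← Module.forall_dual_apply_eq_zero_iff (ZMod 2)]
    intro φ
    have h1 : ∑ i, φ (a i) • b i = 0 := by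
      ext x
      have h2 := congrArg φ (congrFun (congrArg Subtype.val ha) x)
      simp only [AddSubmonoidClass.coe_finsetSum, SetLike.val_smul, Finset.sum_apply,
        Pi.smul_apply, smul_eq_mul, map_sum, ZeroMemClass.coe_zero, Pi.zero_apply, map_zero, v]
        at h2 ⊢
      rw [← h2]
      refine Finset.sum_congr rfl fun i _ => ?_
      rw [Algebra.algebraMap_eq_smul_one, mul_smul_comm, mul_one, map_smul, smul_eq_mul, mul_comm]
    have h3 := b.linearIndependent
    rw [Fintype.linearIndependent_iff] at h3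
    exact h3 _ h1 i
  simpa using hv.fintype_card_le_finrank

omit [Fintype Q] in
lemma ext_inv (C : Submodule (ZMod 2) (Q → ZMod 2))
    (hC : ∀ g : Q, ∀ c ∈ C, (fun x => c (g * x)) ∈ C) (g : Q) (f : Q → K) (hf : f ∈ ext C) :
    (fun x => f (g * x)) ∈ ext C := by
  induction hf using Submodule.span_induction with
  | mem f hf =>
    obtain ⟨c, hc, rfl⟩ := hf
    exact Submodule.subset_span ⟨_, hC g c hc, rfl⟩
  | zero => exact (ext C).zero_mem
  | add f f' _ _ hf hf' => exact (ext C).add_mem hf hf'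
  | smul a f hf ih => exact (ext C).smul_mem a ih

/-- The characters which belong to the code. -/
def Sp (C : Submodule (ZMod 2) (Q → ZMod 2)) : Set (Q →* Kˣ) :=
  {χ | (fun x => (χ x : K)) ∈ ext C}

lemma fourier_mem (C : Submodule (ZMod 2) (Q → ZMod 2))
    (hC : ∀ g : Q, ∀ c ∈ C, (fun x => c (g * x)) ∈ C) (f : Q → K) (hf : f ∈ ext C)
    (χ : Q →* Kˣ) : (fun x => (∑ z, ((χ z)⁻¹ : Kˣ) * f z) * (χ x : K)) ∈ ext C := by
  have h1 : (fun x => (∑ z, ((χ z)⁻¹ : Kˣ) * f z) * (χ x : K))
      = ∑ y, (((χ y)⁻¹ : Kˣ) : K) • fun x => f (y * x) := by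
    funext x
    rw [Finset.sum_apply, Finset.sum_mul, ← Equiv.sum_comp (Equiv.mulRight x)]
    refine Finset.sum_congr rfl fun y _ => ?_
    simp only [Equiv.coe_mulRight, map_mul, mul_inv, Units.val_mul, Pi.smul_apply, smul_eq_mul]
    have : ((χ x)⁻¹ : Kˣ) * (χ x : K) = 1 := Units.inv_mul _
    calc _ = ((χ y)⁻¹ : Kˣ) * f (y * x) * (((χ x)⁻¹ : Kˣ) * (χ x : K)) := by ring
      _ = _ := by rw [this, mul_one]
  rw [h1]
  exact Submodule.sum_mem _ fun y _ => (ext C).smul_mem _ (ext_inv C hC y f hf)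

variable (Q) in
lemma exists_dual (hQ : Odd (Nat.card Q)) : Finite (Q →* Kˣ) ∧ Nat.card (Q →* Kˣ) = Nat.card Q ∧
    ∀ a : Q, a ≠ 1 → ∃ χ : Q →* Kˣ, χ a ≠ 1 := by
  have hexp : Odd (Monoid.exponent Q) := hQ.of_dvd_nat Group.exponent_dvd_nat_card
  have : NeZero ((Monoid.exponent Q : ℕ) : K) := ⟨by
    rw [Ne, CharP.cast_eq_zero_iff K 2]
    intro h
    exact (Nat.not_even_iff_odd.2 hexp) (even_iff_two_dvd.2 h)⟩
  have h1 : Nat.card (Q →* Kˣ) = Nat.card Q := CommGroup.card_monoidHom_of_hasEnoughRootsOfUnity Q K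
  refine ⟨?_, h1, fun a ha => CommGroup.exists_apply_ne_one_of_hasEnoughRootsOfUnity Q K ha⟩
  exact Nat.finite_of_card_ne_zero (by rw [h1]; exact Nat.card_pos.ne')

lemma inversion (hQ : Odd (Nat.card Q)) [Fintype (Q →* Kˣ)] (f : Q → K) (x : Q) :
    f x = ∑ χ : Q →* Kˣ, (∑ z, ((χ z)⁻¹ : Kˣ) * f z) * (χ x : K) := by
  classical
  obtain ⟨-, h1, h2⟩ := exists_dual Q hQ
  have h3 : ∀ a : Q, ∑ χ : Q →* Kˣ, (χ a : K) = if a = 1 then 1 else 0 := by
    intro a
    split_ifs with h
    · subst h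
      simp only [map_one, Units.val_one, Finset.sum_const, Finset.card_univ, nsmul_eq_mul, mul_one]
      rw [← Nat.card_eq_fintype_card, h1]
      have h4 : ((Nat.card Q : ℕ) : K) = 1 := by
        obtain ⟨k, hk⟩ := hQ
        have h5 : (2 : K) = 0 := CharTwo.two_eq_zero
        rw [hk]
        push_cast
        rw [h5, zero_mul, zero_add]
      exact h4
    · obtain ⟨χ₀, hχ₀⟩ := h2 a h
      have h4 : (χ₀ a : K) * ∑ χ : Q →* Kˣ, (χ a : K) = ∑ χ : Q →* Kˣ, (χ a : K) := by
        rw [Finset.mul_sum]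
        exact Fintype.sum_equiv (Equiv.mulLeft χ₀) _ _ fun χ => rfl
      have h5 : ((χ₀ a : K) - 1) * ∑ χ : Q →* Kˣ, (χ a : K) = 0 := by
        rw [sub_mul, h4, one_mul, sub_self]
      rcases mul_eq_zero.1 h5 with h6 | h6
      · exact absurd (Units.ext (sub_eq_zero.1 h6)) hχ₀
      · exact h6
  simp only [Finset.sum_mul]
  rw [Finset.sum_comm]
  have h4 : ∀ z, ∑ χ : Q →* Kˣ, ((χ z)⁻¹ : Kˣ) * f z * (χ x : K)
      = f z * (if z⁻¹ * x = 1 then 1 else 0) := by
    intro z
    rw [← h3, Finset.mul_sum]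
    refine Finset.sum_congr rfl fun χ _ => ?_
    rw [map_mul, map_inv, Units.val_mul]
    ring
  rw [Finset.sum_congr rfl fun z _ => h4 z]
  simp only [inv_mul_eq_one, mul_ite, mul_one, mul_zero, Finset.sum_ite_eq', Finset.mem_univ,
    if_true]

lemma finrank_le_card (hQ : Odd (Nat.card Q)) (C : Submodule (ZMod 2) (Q → ZMod 2))
    (hC : ∀ g : Q, ∀ c ∈ C, (fun x => c (g * x)) ∈ C) :
    Module.finrank (ZMod 2) C ≤ Nat.card (Sp C) := by
  classical
  have := (exists_dual Q hQ).1
  have := Fintype.ofFinite (Q →* Kˣ)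
  refine (finrank_le_ext C).trans ?_
  have h1 : ext C ≤ Submodule.span K (Set.range fun χ : Sp C => fun x => (χ.1 x : K)) := by
    intro f hf
    have h2 : f = ∑ χ : Q →* Kˣ, fun x => (∑ z, ((χ z)⁻¹ : Kˣ) * f z) * (χ x : K) := by
      funext x
      rw [Finset.sum_apply]
      exact inversion hQ f x
    rw [h2]
    refine Submodule.sum_mem _ fun χ _ => ?_
    set a := ∑ z, (((χ z)⁻¹ : Kˣ) : K) * f z with ha
    have h3 : (fun x => a * (χ x : K)) ∈ ext C := fourier_mem C hC f hf χ
    by_cases h0 : a = 0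
    · rw [h0]
      simp only [zero_mul]
      exact Submodule.zero_mem _
    · have h4 : χ ∈ Sp C := by
        have h5 := (ext C).smul_mem a⁻¹ h3
        have h6 : (a⁻¹ • fun x => a * (χ x : K)) = fun x => (χ x : K) := by
          funext x
          simp only [Pi.smul_apply, smul_eq_mul]
          rw [← mul_assoc, inv_mul_cancel₀ h0, one_mul]
        rw [h6] at h5
        exact h5
      have h5 : (fun x => a * (χ x : K)) = a • fun x => (χ x : K) := rfl
      rw [h5]
      exact Submodule.smul_mem _ _ (Submodule.subset_span ⟨⟨χ, h4⟩, rfl⟩)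
  refine (Submodule.finrank_mono h1).trans ?_
  refine (finrank_range_le_card _).trans ?_
  rw [Nat.card_eq_fintype_card]

/-- The density Hales-Jewett theorem for the alphabet `ZMod p`. -/
lemma md (p : ℕ) [Fact p.Prime] : MD (ZMod p) := by
  have hp : p - 1 + 1 = p := Nat.succ_pred_prime Fact.out
  have e : Fin (p - 1 + 1) ≃ ZMod p := Fintype.equivOfCardEq (by
    rw [Fintype.card_fin, ZMod.card, hp])
  exact MD_of_D (D_equiv e (dhj (p - 1)))

theorem odd_case (p : ℕ) [Fact p.Prime] (hp : p ≠ 2) (ε : ℝ) (hε : 0 < ε) (m : ℕ) :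
    ∃ r : ℕ, ∀ (Q : Type) [CommGroup Q] [Finite Q], Odd (Nat.card Q) →
      ∀ π : Q →* Multiplicative (Fin r → ZMod p), Function.Surjective π →
      ∀ C : Submodule (ZMod 2) (Q → ZMod 2), (∀ g : Q, ∀ c ∈ C, (fun x => c (g * x)) ∈ C) →
      ε * Nat.card Q ≤ Module.finrank (ZMod 2) C →
      ∃ c ∈ C, c ≠ 0 ∧ ∃ Λ : Q →* Multiplicative (Fin m → ZMod p), Function.Surjective Λ ∧
        ∀ x, c x ≠ 0 → Λ x = 1 := by
  classical
  obtain ⟨r, hr⟩ := md p m ε hε
  refine ⟨r, ?_⟩
  intro Q _ _ hQ π hπ C hC hdim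
  have := Fintype.ofFinite Q
  obtain ⟨hfin, hcard, -⟩ := exists_dual Q hQ
  have := Fintype.ofFinite (Q →* Kˣ)
  -- a nontrivial character of `ZMod p`
  obtain ⟨φ, hφ⟩ : ∃ φ : Multiplicative (ZMod p) →* Kˣ, φ (Multiplicative.ofAdd 1) ≠ 1 := by
    have h1 : Odd (Nat.card (Multiplicative (ZMod p))) := by
      rw [Nat.card_eq_fintype_card, Fintype.card_multiplicative, ZMod.card]
      exact (Fact.out : p.Prime).odd_of_ne_two hp
    exact (exists_dual _ h1).2.2 _ (by
      rw [Ne, ofAdd_eq_one]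
      exact one_ne_zero)
  have hφ0 : ∀ a : ZMod p, φ (Multiplicative.ofAdd a) = 1 → a = 0 := by
    intro a ha
    by_contra h0
    apply hφ
    have h1 : Multiplicative.ofAdd (1 : ZMod p) = (Multiplicative.ofAdd a) ^ (a⁻¹).val := by
      rw [← ofAdd_nsmul, nsmul_eq_mul, ZMod.natCast_val, ZMod.cast_id', id, inv_mul_cancel₀ h0]
    rw [h1, map_pow, ha, one_pow]
  have hsum : ∀ a : ZMod p, ∑ y : ZMod p, (φ (Multiplicative.ofAdd (y * a)) : K)
      = if a = 0 then 1 else 0 := by
    intro a
    split_ifs with h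
    · subst h
      simp only [mul_zero, ofAdd_zero, map_one, Units.val_one, Finset.sum_const, Finset.card_univ,
        nsmul_eq_mul, mul_one, ZMod.card]
      obtain ⟨k, hk⟩ := (Fact.out : p.Prime).odd_of_ne_two hp
      have h5 : (2 : K) = 0 := CharTwo.two_eq_zero
      have h6 : ((p : ℕ) : K) = ((2 * k + 1 : ℕ) : K) := by rw [← hk]
      rw [h6]
      push_cast
      rw [h5, zero_mul, zero_add]
    · have h1 : ∑ y : ZMod p, (φ (Multiplicative.ofAdd (y * a)) : K)
          = ∑ z : Multiplicative (ZMod p), (((Units.coeHom K).comp φ) z : K) :=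
        Fintype.sum_equiv ((Equiv.mulRight₀ a h).trans Multiplicative.ofAdd) _ _ fun y => rfl
      rw [h1]
      apply sum_hom_units_eq_zero
      intro h2
      apply hφ
      have h3 := DFunLike.congr_fun h2 (Multiplicative.ofAdd 1)
      exact Units.ext h3
  -- the characters of the quotient
  let ψ : (Fin r → ZMod p) → (Q →* Kˣ) := fun v => MonoidHom.mk' (fun x =>
    φ (Multiplicative.ofAdd (∑ i, v i * Multiplicative.toAdd (π x) i))) (by
      intro x y
      rw [← map_mul, ← ofAdd_add, map_mul, ← Finset.sum_add_distrib]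
      congr 2
      refine Finset.sum_congr rfl fun i _ => ?_
      rw [← mul_add]
      rfl)
  obtain ⟨χ₀, hχ₀⟩ : ∃ χ₀ : Q →* Kˣ, ε ≤ dn {v : Fin r → ZMod p | χ₀ * ψ v ∈ Sp C} := by
    have h1 : av (fun χ₀ : Q →* Kˣ => dn {v : Fin r → ZMod p | χ₀ * ψ v ∈ Sp C}) = dn (Sp C) := by
      unfold dn
      rw [av_comm (f := fun (χ₀ : Q →* Kˣ) (v : Fin r → ZMod p) =>
        Set.indicator {v : Fin r → ZMod p | χ₀ * ψ v ∈ Sp C} (fun _ => (1 : ℝ)) v)]
      have h2 : ∀ v : Fin r → ZMod p, av (fun χ₀ : Q →* Kˣ =>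
          Set.indicator {v : Fin r → ZMod p | χ₀ * ψ v ∈ Sp C} (fun _ => (1 : ℝ)) v)
          = av ((Sp C).indicator fun _ => (1 : ℝ)) := by
        intro v
        exact av_equiv (Equiv.mulRight (ψ v)) ((Sp C).indicator fun _ => (1 : ℝ))
      rw [funext h2]
      exact av_const _
    have h2 : ε ≤ dn (Sp C) := by
      have h3 : dn (Sp C) = (Nat.card (Sp C) : ℝ) / Nat.card Q := by
        unfold dn av
        rw [← Nat.card_eq_fintype_card, hcard]
        congr 1
        rw [Nat.card_eq_fintype_card, ← Set.toFinset_card, Finset.card_eq_sum_ones]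
        push_cast
        rw [← Finset.sum_subset (Finset.subset_univ (Sp C).toFinset)]
        · refine Finset.sum_congr rfl fun x hx => ?_
          rw [Set.indicator_of_mem (by simpa using hx)]
        · intro x _ hx
          rw [Set.indicator_of_notMem (by simpa using hx)]
      have h4 : (0 : ℝ) < Nat.card Q := by exact_mod_cast Nat.card_pos
      rw [h3, le_div_iff₀ h4]
      exact hdim.trans (by exact_mod_cast finrank_le_card hQ C hC)
    obtain ⟨χ₀, h3⟩ := exists_le_av fun χ₀ : Q →* Kˣ => dn {v : Fin r → ZMod p | χ₀ * ψ v ∈ Sp C}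
    exact ⟨χ₀, h2.trans (h1 ▸ h3)⟩
  obtain ⟨V, hV, hVA⟩ := hr (Fin r) (by rw [Fintype.card_fin]) _ hχ₀
  let L : Q → Fin m → ZMod p := fun x j =>
    ∑ i ∈ univ.filter (fun i => V i = Sum.inr j), Multiplicative.toAdd (π x) i
  have hLmul : ∀ x y j, L (x * y) j = L x j + L y j := by
    intro x y j
    simp only [L, map_mul, toAdd_mul, Pi.add_apply, Finset.sum_add_distrib]
  let Λ : Q →* Multiplicative (Fin m → ZMod p) := MonoidHom.mk' (fun x =>
    Multiplicative.ofAdd (L x)) (by
      intro x y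
      rw [← ofAdd_add]
      congr 1
      funext j
      exact hLmul x y j)
  have hsplit : ∀ (y : Fin m → ZMod p) (u : Fin r → ZMod p), ∑ i, ap V y i * u i =
      ∑ i, ap V 0 i * u i + ∑ j, y j * ∑ i ∈ univ.filter (fun i => V i = Sum.inr j), u i := by
    intro y u
    have h1 : ∀ i, ap V y i * u i = ap V 0 i * u i +
        ∑ j, if V i = Sum.inr j then y j * u i else 0 := by
      intro i
      unfold ap
      rcases hVi : V i with a | j
      · simp
      · simp
    rw [Finset.sum_congr rfl fun i _ => h1 i, Finset.sum_add_distrib, Finset.sum_comm]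
    congr 1
    refine Finset.sum_congr rfl fun j _ => ?_
    rw [Finset.mul_sum, Finset.sum_filter]
  let f : Q → K := fun x => ∑ y : Fin m → ZMod p, ((χ₀ * ψ (ap V y)) x : K)
  have hfmem : f ∈ ext C := by
    have h1 : f = ∑ y : Fin m → ZMod p, fun x => (((χ₀ * ψ (ap V y)) x : Kˣ) : K) := by
      funext x
      rw [Finset.sum_apply]
    rw [h1]
    exact Submodule.sum_mem _ fun y _ => hVA y
  have hf : ∀ x, f x = (χ₀ x : K) * (ψ (ap V 0) x : K) * ∏ j, (if L x j = 0 then 1 else 0) := by
    intro x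
    have h1 : ∀ y : Fin m → ZMod p, (((χ₀ * ψ (ap V y)) x : Kˣ) : K) =
        (χ₀ x : K) * (ψ (ap V 0) x : K) * ∏ j, (φ (Multiplicative.ofAdd (y j * L x j)) : K) := by
      intro y
      rw [MonoidHom.mul_apply, Units.val_mul, mul_assoc]
      congr 1
      show (φ (Multiplicative.ofAdd (∑ i, ap V y i * Multiplicative.toAdd (π x) i)) : K) =
        (φ (Multiplicative.ofAdd (∑ i, ap V 0 i * Multiplicative.toAdd (π x) i)) : K) * _
      rw [hsplit, ofAdd_add, map_mul, Units.val_mul]
      congr 1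
      rw [ofAdd_sum, map_prod, Units.coe_prod]
    show ∑ y : Fin m → ZMod p, (((χ₀ * ψ (ap V y)) x : Kˣ) : K) = _
    rw [Finset.sum_congr rfl fun y _ => h1 y, ← Finset.mul_sum]
    congr 1
    rw [← Finset.prod_congr rfl fun j _ => hsum (L x j), Finset.prod_univ_sum,
      Fintype.piFinset_univ]
  have hf1 : f 1 ≠ 0 := by
    rw [hf]
    have h1 : ∀ j, L 1 j = 0 := by
      intro j
      have := hLmul 1 1 j
      rw [mul_one] at this
      simpa using this
    simp [h1]
  obtain ⟨ω, hω⟩ : ∃ ω : K →ₗ[ZMod 2] ZMod 2, ω (f 1) ≠ 0 := by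
    by_contra hcon
    push Not at hcon
    exact hf1 ((Module.forall_dual_apply_eq_zero_iff (ZMod 2) (f 1)).1 hcon)
  refine ⟨_, descend C f hfmem ω, fun h => hω (congrFun h 1), Λ, ?_, ?_⟩
  · intro w
    choose i hi using hV
    have hinj : Function.Injective i := by
      intro j j' h
      have h1 := hi j
      rw [h, hi j'] at h1
      exact (Sum.inr_injective h1).symm
    obtain ⟨x, hx⟩ := hπ (Multiplicative.ofAdd
      (Function.extend i (Multiplicative.toAdd w) 0))
    refine ⟨x, ?_⟩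
    show Multiplicative.ofAdd (L x) = w
    have h1 : L x = Multiplicative.toAdd w := by
      funext j
      show ∑ i ∈ univ.filter (fun i => V i = Sum.inr j), Multiplicative.toAdd (π x) i = _
      rw [hx, Finset.sum_eq_single (i j)]
      · exact hinj.extend_apply _ _ j
      · intro k hk hkj
        rw [Finset.mem_filter] at hk
        rw [toAdd_ofAdd, Function.extend_apply']
        · rfl
        · rintro ⟨j', rfl⟩
          have h2 := hi j'
          rw [hk.2] at h2
          exact hkj (congrArg i (Sum.inr_injective h2).symm)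
      · intro h
        exact (h (by simp [hi j])).elim
    rw [h1]
    rfl
  · intro x hx
    have h1 : f x ≠ 0 := fun h => hx (by rw [h, map_zero])
    rw [hf] at h1
    have h2 := right_ne_zero_of_mul h1
    rw [Finset.prod_ne_zero_iff] at h2
    show Multiplicative.ofAdd (L x) = 1
    rw [ofAdd_eq_one]
    funext j
    by_contra h3
    exact h2 j (Finset.mem_univ j) (if_neg h3)

end Odd

theorem gen_case (p : ℕ) [Fact p.Prime] (hp : p ≠ 2) (ε : ℝ) (hε : 0 < ε) (m : ℕ) :
    ∃ r : ℕ, ∀ (A : Type) [CommGroup A] [Finite A],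
      ∀ π : A →* Multiplicative (Fin r → ZMod p), Function.Surjective π →
      ∀ C : Submodule (ZMod 2) (A → ZMod 2), (∀ g : A, ∀ c ∈ C, (fun x => c (g * x)) ∈ C) →
      ε * Nat.card A ≤ Module.finrank (ZMod 2) C →
      ∃ c ∈ C, c ≠ 0 ∧ ∃ Λ : A →* Multiplicative (Fin m → ZMod p), Function.Surjective Λ ∧
        ∀ x, c x ≠ 0 → Λ x = 1 := by
  obtain ⟨r, hr⟩ := odd_case p hp ε hε m
  refine ⟨r, ?_⟩
  intro A _ _ π hπ C hC hdim
  have P : Sylow 2 A := default
  obtain ⟨k, hk⟩ := (IsPGroup.iff_card (p := 2)).1 P.isPGroup'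
  have hcardA : Nat.card A = Nat.card (A ⧸ (P : Subgroup A)) * 2 ^ k := by
    rw [← hk]
    exact Subgroup.card_eq_card_quotient_mul_card_subgroup _
  have hodd : Odd (Nat.card (A ⧸ (P : Subgroup A))) := by
    rw [← Nat.not_even_iff_odd, even_iff_two_dvd]
    exact P.not_dvd_index
  set C' := C.comap (LinearMap.funLeft (ZMod 2) (ZMod 2) (QuotientGroup.mk (s := (P : Subgroup A))))
    with hC'
  have h1 := finrank_le_fixed (G := P) (X := A) P.isPGroup' C
    (fun g c hc => hC g.1 c hc) k ⊤ (by rw [Subgroup.card_top, hk])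
  have h2 : fixed C (⊤ : Subgroup P) ≤ C'.map (LinearMap.funLeft (ZMod 2) (ZMod 2)
      (QuotientGroup.mk (s := (P : Subgroup A)))) := by
    intro c hc
    let g : A ⧸ (P : Subgroup A) → ZMod 2 := fun q => c q.out
    have hg : (fun x : A => g (QuotientGroup.mk x)) = c := by
      funext x
      obtain ⟨u, hu⟩ := QuotientGroup.mk_out_eq_mul (P : Subgroup A) x
      show c (Quotient.out (QuotientGroup.mk x)) = c x
      rw [hu, mul_comm]
      exact hc.2 u trivial x
    refine ⟨g, ?_, hg⟩
    show (fun x : A => g (QuotientGroup.mk x)) ∈ C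
    rw [hg]
    exact hc.1
  have h3 : Module.finrank (ZMod 2) C ≤ 2 ^ k * Module.finrank (ZMod 2) C' :=
    h1.trans (Nat.mul_le_mul_left _ ((Submodule.finrank_mono h2).trans
      (Submodule.finrank_map_le _ _)))
  have h4 : (P : Subgroup A) ≤ π.ker := by
    intro u hu
    rw [MonoidHom.mem_ker]
    have h5 : (π u) ^ p = 1 := by
      apply Multiplicative.toAdd.injective
      rw [toAdd_pow, toAdd_one]
      funext i
      simp
    have h6 : (π u) ^ (2 ^ k) = 1 := by
      rw [← map_pow]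
      have : (⟨u, hu⟩ : P) ^ (2 ^ k) = 1 := by
        rw [← hk]
        exact pow_card_eq_one'
      have h7 : u ^ (2 ^ k) = 1 := congrArg Subtype.val this
      rw [h7, map_one]
    have h7 : orderOf (π u) ∣ Nat.gcd p (2 ^ k) :=
      Nat.dvd_gcd (orderOf_dvd_of_pow_eq_one h5) (orderOf_dvd_of_pow_eq_one h6)
    have h8 : Nat.gcd p (2 ^ k) = 1 := by
      apply Nat.Coprime.pow_right
      exact (Nat.coprime_primes Fact.out Nat.prime_two).2 hp
    rw [h8, Nat.dvd_one] at h7
    exact orderOf_eq_one_iff.1 h7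
  obtain ⟨c, hc, hc0, Λ, hΛ, hcΛ⟩ := hr (A ⧸ (P : Subgroup A)) hodd
    (QuotientGroup.lift _ π h4)
    (fun w => by
      obtain ⟨x, hx⟩ := hπ w
      exact ⟨QuotientGroup.mk x, hx⟩) C'
    (by
      intro g c hc
      induction g using QuotientGroup.induction_on with
      | H g => exact hC g _ hc)
    (by
      have h5 : (Module.finrank (ZMod 2) C : ℝ) ≤ 2 ^ k * Module.finrank (ZMod 2) C' := by
        exact_mod_cast h3
      rw [hcardA] at hdim
      push_cast at hdim
      have h6 : (0 : ℝ) < 2 ^ k := by positivity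
      rw [← mul_le_mul_iff_of_pos_left h6]
      calc _ = ε * (Nat.card (A ⧸ (P : Subgroup A)) * 2 ^ k) := by ring
        _ ≤ _ := hdim.trans h5)
  refine ⟨_, hc, ?_, Λ.comp (QuotientGroup.mk' _), ?_, fun x hx => hcΛ _ hx⟩
  · intro h
    apply hc0
    funext q
    induction q using QuotientGroup.induction_on with
    | H x => exact congrFun h x
  · exact hΛ.comp (QuotientGroup.mk'_surjective _)

/-- `C` is invariant under a commutative group `G` of permutations of the coordinates which acts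
transitively and has a quotient isomorphic to `(ℤ/p)^r`. (A transitive commutative group acts
regularly, so `C` is an ideal of the group algebra of `G`, that is, an abelian code, and the last
condition says that `G` has `p`-rank at least `r`.) -/
def IsAbelianCode (p r : ℕ) {n : ℕ} (C : Submodule (ZMod 2) (Fin n → ZMod 2)) : Prop :=
  ∃ G : Subgroup (Equiv.Perm (Fin n)), (∀ σ ∈ G, ∀ τ ∈ G, σ * τ = τ * σ) ∧
    (∀ x y, ∃ σ ∈ G, σ x = y) ∧ (∀ σ ∈ G, ∀ c ∈ C, (fun x => c (σ x)) ∈ C) ∧
    ∃ φ : G →* Multiplicative (Fin r → ZMod p), Function.Surjective φ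

/-- For every odd prime `p` and all `δ, ε > 0` there is `r₀` such that every binary abelian code
of relative minimum distance at least `δ` whose group has `p`-rank at least `r₀` has rate less
than `ε`. -/
theorem result : ∀ p : ℕ, p.Prime → p ≠ 2 → ∀ δ ε : ℝ, 0 < δ → 0 < ε → ∃ r₀ : ℕ, ∀ r ≥ r₀,
    ∀ n : ℕ, 0 < n → ∀ C : Submodule (ZMod 2) (Fin n → ZMod 2), IsAbelianCode p r C →
      (∀ c ∈ C, c ≠ 0 → δ * n ≤ (hammingNorm c : ℝ)) →
      (Module.finrank (ZMod 2) C : ℝ) < ε * n := by
  intro p hp' hp δ ε hδ hε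
  have : Fact p.Prime := ⟨hp'⟩
  obtain ⟨m, hm⟩ : ∃ m : ℕ, 1 / δ < (2 : ℝ) ^ m := pow_unbounded_of_one_lt _ (by norm_num)
  obtain ⟨r₀, h⟩ := gen_case p hp ε hε m
  refine ⟨r₀, fun r hr n hn C hC hd => ?_⟩
  obtain ⟨G, hcomm, htrans, hinv, φ, hφ⟩ := hC
  by_contra hcon
  push Not at hcon
  let x₀ : Fin n := ⟨0, hn⟩
  let _ : CommGroup G := { (inferInstance : Group G) with
    mul_comm := fun a b => Subtype.ext (hcomm a.1 a.2 b.1 b.2) }
  have hbij : Function.Bijective fun g : G => g.1 x₀ := by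
    constructor
    · intro g h hgh
      apply Subtype.ext
      ext y : 1
      obtain ⟨σ, hσ, rfl⟩ := htrans x₀ y
      have h1 : g.1 (σ x₀) = σ (g.1 x₀) := by
        have := congrArg (fun τ : Equiv.Perm (Fin n) => τ x₀) (hcomm g.1 g.2 σ hσ)
        exact this
      have h2 : h.1 (σ x₀) = σ (h.1 x₀) := by
        have := congrArg (fun τ : Equiv.Perm (Fin n) => τ x₀) (hcomm h.1 h.2 σ hσ)
        exact this
      rw [h1, h2]
      exact congrArg σ hgh
    · intro y
      obtain ⟨σ, hσ, h⟩ := htrans x₀ y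
      exact ⟨⟨σ, hσ⟩, h⟩
  let e : G ≃ Fin n := Equiv.ofBijective _ hbij
  have hGn : Nat.card G = n := by
    rw [Nat.card_congr e, Nat.card_eq_fintype_card, Fintype.card_fin]
  let E := LinearEquiv.funCongrLeft (ZMod 2) (ZMod 2) e
  have hφ' : ∃ φ' : G →* Multiplicative (Fin r₀ → ZMod p), Function.Surjective φ' := by
    let q : Multiplicative (Fin r → ZMod p) →* Multiplicative (Fin r₀ → ZMod p) :=
      MonoidHom.mk' (fun v => Multiplicative.ofAdd fun i =>
        Multiplicative.toAdd v (Fin.castLE hr i)) (fun v w => rfl)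
    refine ⟨q.comp φ, ?_⟩
    have hq : Function.Surjective q := by
      intro w
      refine ⟨Multiplicative.ofAdd (Function.extend (Fin.castLE hr) (Multiplicative.toAdd w) 0),
        ?_⟩
      show Multiplicative.ofAdd (fun i => Function.extend (Fin.castLE hr)
        (Multiplicative.toAdd w) 0 (Fin.castLE hr i)) = w
      have : (fun i => Function.extend (Fin.castLE hr) (Multiplicative.toAdd w) 0
          (Fin.castLE hr i)) = Multiplicative.toAdd w := by
        funext i
        exact (Fin.castLE_injective hr).extend_apply _ _ i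
      rw [this]
      rfl
    exact hq.comp hφ
  obtain ⟨φ', hφ'⟩ := hφ'
  obtain ⟨c', ⟨c, hcC, rfl⟩, hc0, Λ, hΛ, hcΛ⟩ := h G φ' hφ' (C.map (E : (Fin n → ZMod 2) →ₗ[ZMod 2] _))
    (by
      rintro g _ ⟨c, hc, rfl⟩
      exact ⟨_, hinv g.1 g.2 c hc, rfl⟩)
    (by
      rw [hGn, LinearEquiv.finrank_map_eq]
      exact hcon)
  have hc0' : c ≠ 0 := by
    rintro rfl
    exact hc0 (map_zero _)
  have h1 := hd c hcC hc0'
  have h2 : hammingNorm c ≤ Nat.card Λ.ker := by
    have h3 : hammingNorm c = Nat.card {x : Fin n // c x ≠ 0} := by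
      rw [Nat.card_eq_fintype_card, Fintype.card_subtype]
      rfl
    rw [h3]
    refine Nat.card_le_card_of_injective (fun x => ⟨e.symm x.1, ?_⟩) ?_
    · rw [MonoidHom.mem_ker]
      apply hcΛ
      show c (e (e.symm x.1)) ≠ 0
      rw [Equiv.apply_symm_apply]
      exact x.2
    · intro x y hxy
      exact Subtype.ext (e.symm.injective (congrArg Subtype.val hxy))
  have h3 : Nat.card Λ.ker * p ^ m = n := by
    have h4 := Subgroup.card_mul_index Λ.ker
    rw [Subgroup.index_ker, MonoidHom.range_eq_top.2 hΛ, Subgroup.card_top, hGn] at h4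
    have h5 : Nat.card (Multiplicative (Fin m → ZMod p)) = p ^ m := by
      rw [Nat.card_congr (Multiplicative.toAdd (α := Fin m → ZMod p)), Nat.card_fun]
      simp
    rwa [h5] at h4
  have h4 : (Nat.card Λ.ker : ℝ) * p ^ m = n := by exact_mod_cast h3
  have h5 : (hammingNorm c : ℝ) ≤ Nat.card Λ.ker := by exact_mod_cast h2
  have h6 : (2 : ℝ) ^ m ≤ (p : ℝ) ^ m :=
    pow_le_pow_left₀ (by norm_num) (by exact_mod_cast hp'.two_le) m
  have h7 : 1 / δ < (p : ℝ) ^ m := hm.trans_le h6
  rw [div_lt_iff₀ hδ] at h7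
  have h8 : (0 : ℝ) < Nat.card Λ.ker := by exact_mod_cast Nat.card_pos
  have h9 : (Nat.card Λ.ker : ℝ) * 1 < Nat.card Λ.ker * (p ^ m * δ) := mul_lt_mul_of_pos_left h7 h8
  have h10 : (Nat.card Λ.ker : ℝ) * (p ^ m * δ) = δ * n := by
    rw [← h4]
    ring
  linarith

end Pool.Agent.Results.MP_0430e4_lc.AbelianRank
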