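import Pool.Agent.R181.CC.Main

set_option autoImplicit false

/-!
# The best binary codes closed under a coordinatewise operation

A coordinatewise operation `F` with `k` arguments on words with coordinates in `ι` is given by
arbitrary Boolean functions `f i : {0,1}^k → {0,1}`, one for each coordinate `i` (they may be
different); a code `C` is *closed* under it (`Closed f C`) if `F` maps `k` words of `C` to a word of
`C`. Examples: intersections or unions (Horn codes), majorities (codes defined by 2-CNF formulas),
sums of three words (affine codes), and arbitrary mixtures of them. We determine the largest size
`maxClosed f d` of a closed code with minimum distance at least `d`.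

(1) Let all `f i` be idempotent (`f i (b, …, b) = b`). Then the largest size is the product of
* `2 ^ ⌊m / d⌋` for every pair `{g, g*}` of dual non-affine functions, where `m` is the number of
  coordinates `i` with `f i = g` or `f i = g*`;
* `A(m, d)`, the largest size of an arbitrary code, for every argument `j`, where `m` is the number
  of coordinates at which `F` is the projection to the `j`-th argument;
* `A_lin(m, d)`, the largest size of a linear code, for every sum `a · v` of at least three
  arguments, where `m` is the number of coordinates at which `F` is this sum.
(So nothing can be gained from the coordinates at which `F` is not affine, except independent bits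
which are repeated `d` times, and nothing from an interaction between different functions.)

(2) If the same non-affine function `g` is used at all `n ≥ d` coordinates (`g` need not be
idempotent: for instance NAND), then the largest size is exactly `2 ^ ⌊n / d⌋`. Therefore the
asymptotic rate of the codes closed under a Boolean function is zero as soon as the function is not
affine.

Proof. Consider the inclusion-minimal sets `D` of the form `{i | x i ≠ y i}` for `x ≠ y` in `C`. If
words of `C` that agree outside `D` are equal on one coordinate of `D` then they are equal. Plugging
`x`, `y` and a third word `z` of `C` into `F` one finds: if `f i` is not affine for some `i ∈ D`, then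
every word of `C` agrees on `D` with `x` or with `y`, and `D` lies in one class `{g, g*}`. Such sets
`D` are disjoint and have at least `d` elements, and a word of `C` is determined by one bit for each
of them and by its affine coordinates. If `x, y ∈ C` differ at a coordinate with the function `a · v`
then the difference can be pushed into the set of coordinates with this function, as every function
that is constant on the pairs separating it from `a · v` is equal to it.
-/

namespace Pool.Agent.Results.MP_0430e4_lc.ClosedCodes

open Finset Pool.Agent.R181.CC

open Classical in
/-- **The largest size of a binary code that is closed under a coordinatewise operation.** -/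
theorem result :
    -- (1) idempotent operations, which may be different at different coordinates
    (∀ (k : ℕ) (ι : Type) [Fintype ι] (f : ι → Op k) (d : ℕ), 1 ≤ d →
      (∀ i b, f i (fun _ => b) = b) →
      maxClosed f d =
        2 ^ (∑ t ∈ (univ.filter (fun i => ¬ Affine (f i))).image
              (fun i => ({f i, dual (f i)} : Finset (Op k))),
            (univ.filter (fun i => ¬ Affine (f i) ∧ ({f i, dual (f i)} : Finset (Op k)) = t)).card / d) *
        ∏ a : Fin k → ZMod 2,
          if (univ.filter (fun j => a j ≠ 0)).card = 1
          then maxCode (univ.filter (fun i => ∀ v, f i v = ∑ j, a j * v j)).card d
          else maxLinear (univ.filter (fun i => ∀ v, f i v = ∑ j, a j * v j)).card d) ∧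
    -- (2) one arbitrary non-affine operation for all coordinates
    (∀ (k : ℕ) (g : Op k), ¬ Affine g → ∀ n d : ℕ, 1 ≤ d → d ≤ n →
      maxClosed (fun _ : Fin n => g) d = 2 ^ (n / d)) := by
  refine ⟨?_, fun k g hg n d hd hdn => uniform_eq g hg n d hd hdn⟩
  intro k ι _ f d hd hid
  have h := maxClosed_eq f hid d hd
  rw [h]
  have e1 : ∀ a : Fin k → ZMod 2, Fintype.card (linSet f a) =
      (univ.filter (fun i => ∀ v, f i v = ∑ j, a j * v j)).card := by
    intro a
    rw [← Fintype.card_subtype]
    exact Fintype.card_congr (Equiv.refl _)
  congr 1
  apply prod_congr rfl
  intro a _
  rw [e1]
  rfl

end Pool.Agent.Results.MP_0430e4_lc.ClosedCodes
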