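import Mathlib

/-!
# Binary codes: the Gilbert–Varshamov bound and codes of one constant weight

`A(n, d)` is the largest size of a binary code of length `n` and minimum distance `d`, `A(n, d, w)`
the same for codes all of whose words have weight `w`.  By the averaging argument of Elias and
Bassalygo, upper bounds for `A(n, d, w)` give upper bounds for `A(n, d)`.  Here we go in the other
direction: if constant weight codes of one single relative weight `ω < 1/2` have rate above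
`H(ω * δ) - H(δ)`, `ω * δ = ω (1 - δ) + (1 - ω) δ` (the mutual information of the binary symmetric
channel with crossover probability `δ` and input distribution `(1 - ω, ω)`), then the bound of
Gilbert and Varshamov for `R(δ)` is not sharp; and conversely.

Proof.  If `I` is a code with minimum distance `d` and `N(I)` is the set of the words at distance
less than `d` from `I`, then `|I| / |N(I)| ≤ A(n, d) / 2^n`: replace the part of a best code inside a
random translate of `N(I)` by the translate of `I`.  For a constant weight code `I` the set `N(I)`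
has at most `2^(n H(ω * δ + ε))` words of weight at most `(ω * δ + ε) n`, and heavier words are rare
in every ball with radius `δ n` around a word of `I`.
-/

set_option autoImplicit false

open Filter Finset

namespace Pool.Agent.Results.MP_0430e4_lc.ConstantWeightCriterion

/-- `A(n,d)`: the largest size of a binary code of length `n` with minimum distance at least `d`. -/
noncomputable def A (n d : ℕ) : ℕ :=
  sSup {k | ∃ C : Finset (Fin n → Bool),
    (∀ x ∈ C, ∀ y ∈ C, x ≠ y → d ≤ hammingDist x y) ∧ C.card = k}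

/-- the weight of a word: the number of its ones -/
def weight {n : ℕ} (x : Fin n → Bool) : ℕ := (univ.filter fun i => x i = true).card

/-- `A(n,d,w)`: the largest size of a binary code of length `n` with minimum distance at least `d`
all of whose words have weight `w`. -/
noncomputable def Aw (n d w : ℕ) : ℕ :=
  sSup {k | ∃ C : Finset (Fin n → Bool), (∀ x ∈ C, weight x = w) ∧
    (∀ x ∈ C, ∀ y ∈ C, x ≠ y → d ≤ hammingDist x y) ∧ C.card = k}

/-- The asymptotic rate `R(δ) = limsup (1/n) log₂ A(n, ⌈δ n⌉)`. -/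
noncomputable def R (δ : ℝ) : ℝ :=
  limsup (fun n : ℕ => Real.logb 2 (A n ⌈δ * n⌉₊) / n) atTop

/-- `liminf (1/n) log₂ A(n, ⌈δ n⌉)`. -/
noncomputable def Rlow (δ : ℝ) : ℝ :=
  liminf (fun n : ℕ => Real.logb 2 (A n ⌈δ * n⌉₊) / n) atTop

/-- The rate of constant weight codes, `a(ω, δ) = limsup (1/n) log₂ A(n, ⌈δ n⌉, ⌊ω n⌋)`. -/
noncomputable def a (ω δ : ℝ) : ℝ :=
  limsup (fun n : ℕ => Real.logb 2 (Aw n ⌈δ * n⌉₊ ⌊ω * n⌋₊) / n) atTop

/-- `liminf (1/n) log₂ A(n, ⌈δ n⌉, ⌊ω n⌋)`. -/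
noncomputable def alow (ω δ : ℝ) : ℝ :=
  liminf (fun n : ℕ => Real.logb 2 (Aw n ⌈δ * n⌉₊ ⌊ω * n⌋₊) / n) atTop

/-- The binary entropy function `H₂(x) = - x log₂ x - (1 - x) log₂ (1 - x)`. -/
noncomputable def H (x : ℝ) : ℝ := -x * Real.logb 2 x - (1 - x) * Real.logb 2 (1 - x)

/-- The binary convolution `ω * δ = ω (1 - δ) + (1 - ω) δ`. -/
def conv (ω δ : ℝ) : ℝ := ω * (1 - δ) + (1 - ω) * δ

/-! ### Codes -/

/-- minimum distance at least `d` -/
def IsCode {n : ℕ} (d : ℕ) (C : Finset (Fin n → Bool)) : Prop :=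
  ∀ x ∈ C, ∀ y ∈ C, x ≠ y → d ≤ hammingDist x y

lemma A_bdd (n d : ℕ) : BddAbove {k | ∃ C : Finset (Fin n → Bool), IsCode d C ∧ C.card = k} := by
  refine ⟨2 ^ n, ?_⟩
  rintro k ⟨C, -, rfl⟩
  refine (Finset.card_le_univ C).trans ?_
  simp

lemma Aw_bdd (n d w : ℕ) : BddAbove {k | ∃ C : Finset (Fin n → Bool),
    (∀ x ∈ C, weight x = w) ∧ IsCode d C ∧ C.card = k} := by
  refine ⟨2 ^ n, ?_⟩
  rintro k ⟨C, -, -, rfl⟩
  refine (Finset.card_le_univ C).trans ?_
  simp

lemma card_le_A {n d : ℕ} {C : Finset (Fin n → Bool)} (h : IsCode d C) : C.card ≤ A n d :=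
  le_csSup (A_bdd n d) ⟨C, h, rfl⟩

lemma card_le_Aw {n d w : ℕ} {C : Finset (Fin n → Bool)} (h : IsCode d C)
    (hw : ∀ x ∈ C, weight x = w) : C.card ≤ Aw n d w :=
  le_csSup (Aw_bdd n d w) ⟨C, hw, h, rfl⟩

lemma exists_A (n d : ℕ) : ∃ C : Finset (Fin n → Bool), IsCode d C ∧ C.card = A n d :=
  Nat.sSup_mem (s := {k | ∃ C : Finset (Fin n → Bool), IsCode d C ∧ C.card = k})
    ⟨0, ∅, by intro x hx; simp at hx, rfl⟩ (A_bdd n d)

lemma exists_Aw (n d w : ℕ) : ∃ C : Finset (Fin n → Bool),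
    (∀ x ∈ C, weight x = w) ∧ IsCode d C ∧ C.card = Aw n d w :=
  Nat.sSup_mem (s := {k | ∃ C : Finset (Fin n → Bool),
    (∀ x ∈ C, weight x = w) ∧ IsCode d C ∧ C.card = k})
    ⟨0, ∅, by intro x hx; simp at hx, by intro x hx; simp at hx, rfl⟩ (Aw_bdd n d w)

/-! ### Translations -/

/-- translation by `t` -/
def tr {n : ℕ} (t x : Fin n → Bool) : Fin n → Bool := fun i => xor (t i) (x i)

lemma tr_tr {n : ℕ} (t x : Fin n → Bool) : tr t (tr t x) = x := by
  funext i; simp [tr]

lemma tr_comm {n : ℕ} (t x : Fin n → Bool) : tr t x = tr x t := by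
  funext i; simp [tr, Bool.xor_comm]

lemma tr_inj {n : ℕ} (t : Fin n → Bool) : Function.Injective (tr t) := by
  intro x y h
  rw [← tr_tr t x, h, tr_tr]

lemma dist_tr {n : ℕ} (t x y : Fin n → Bool) : hammingDist (tr t x) (tr t y) = hammingDist x y := by
  unfold hammingDist
  congr 1
  ext i
  simp [tr]

lemma dist_tr' {n : ℕ} (t x y : Fin n → Bool) : hammingDist (tr t x) y = hammingDist x (tr t y) := by
  rw [← dist_tr t x (tr t y), tr_tr]

lemma weight_tr {n : ℕ} (x y : Fin n → Bool) : weight (tr x y) = hammingDist x y := by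
  unfold weight hammingDist
  congr 1
  ext i
  simp [tr]

/-- the words at distance less than `d` from `I` -/
def nbhd {n : ℕ} (d : ℕ) (I : Finset (Fin n → Bool)) : Finset (Fin n → Bool) :=
  univ.filter fun v => ∃ x ∈ I, hammingDist x v < d

lemma mem_nbhd {n d : ℕ} {I : Finset (Fin n → Bool)} {v : Fin n → Bool} :
    v ∈ nbhd d I ↔ ∃ x ∈ I, hammingDist x v < d := by
  simp [nbhd]

/-- `|I| ≤ |C ∩ (t + N(I))|` for a best code `C` -/
lemma replace_one {n d : ℕ} (hd : 1 ≤ d) (I C : Finset (Fin n → Bool)) (hI : IsCode d I)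
    (hC : IsCode d C) (hmax : C.card = A n d) (t : Fin n → Bool) :
    I.card ≤ (C.filter fun c => tr t c ∈ nbhd d I).card := by
  classical
  have hdisj : Disjoint (C.filter fun c => tr t c ∉ nbhd d I) (I.image (tr t)) := by
    rw [Finset.disjoint_left]
    intro c hc hc'
    rw [Finset.mem_filter] at hc
    obtain ⟨x, hx, rfl⟩ := Finset.mem_image.1 hc'
    apply hc.2
    rw [mem_nbhd]
    refine ⟨x, hx, ?_⟩
    rw [tr_tr, hammingDist_self]
    omega
  have hcode : IsCode d ((C.filter fun c => tr t c ∉ nbhd d I) ∪ I.image (tr t)) := by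
    have key : ∀ c ∈ C.filter (fun c => tr t c ∉ nbhd d I), ∀ y ∈ I.image (tr t),
        d ≤ hammingDist c y := by
      intro c hc y hy
      rw [Finset.mem_filter] at hc
      obtain ⟨x, hx, rfl⟩ := Finset.mem_image.1 hy
      by_contra hlt
      push Not at hlt
      apply hc.2
      rw [mem_nbhd]
      refine ⟨x, hx, ?_⟩
      rw [hammingDist_comm, dist_tr', ]
      exact hlt
    intro x hx y hy hxy
    rw [Finset.mem_union] at hx hy
    rcases hx with hx | hx <;> rcases hy with hy | hy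
    · exact hC x (Finset.mem_filter.1 hx).1 y (Finset.mem_filter.1 hy).1 hxy
    · exact key x hx y hy
    · rw [hammingDist_comm]
      exact key y hy x hx
    · obtain ⟨x', hx', rfl⟩ := Finset.mem_image.1 hx
      obtain ⟨y', hy', rfl⟩ := Finset.mem_image.1 hy
      rw [dist_tr]
      exact hI x' hx' y' hy' (fun h => hxy (by rw [h]))
  have h1 := card_le_A hcode
  rw [Finset.card_union_of_disjoint hdisj, Finset.card_image_of_injective _ (tr_inj t), ← hmax] at h1
  have h2 := Finset.card_filter_add_card_filter_not (s := C) (fun c => tr t c ∈ nbhd d I)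
  omega

lemma count_tr {n : ℕ} (c : Fin n → Bool) (P : (Fin n → Bool) → Prop) [DecidablePred P] :
    (univ.filter fun t : Fin n → Bool => P (tr t c)).card = (univ.filter P).card := by
  classical
  refine Finset.card_bij (fun t _ => tr c t) ?_ ?_ ?_
  · intro t ht
    simp only [Finset.mem_filter, Finset.mem_univ, true_and] at ht ⊢
    rwa [tr_comm]
  · intro t _ s _ h
    exact tr_inj c h
  · intro v hv
    refine ⟨tr c v, ?_, tr_tr c v⟩
    simp only [Finset.mem_filter, Finset.mem_univ, true_and] at hv ⊢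
    rwa [tr_comm, tr_tr]

lemma double_count {n : ℕ} (C : Finset (Fin n → Bool)) (P : (Fin n → Bool) → Prop)
    [DecidablePred P] :
    ∑ t : Fin n → Bool, (C.filter fun c => P (tr t c)).card = C.card * (univ.filter P).card := by
  classical
  simp_rw [Finset.card_filter]
  rw [Finset.sum_comm]
  rw [← smul_eq_mul, ← Finset.sum_const]
  apply Finset.sum_congr rfl
  intro c _
  rw [← Finset.card_filter, ← Finset.card_filter]
  exact count_tr c P

/-- **Replacement.** -/
theorem replacement {n d : ℕ} (hd : 1 ≤ d) (I : Finset (Fin n → Bool)) (hI : IsCode d I) :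
    I.card * 2 ^ n ≤ A n d * (nbhd d I).card := by
  classical
  obtain ⟨C, hC, hmax⟩ := exists_A n d
  have h1 : ∑ _t : Fin n → Bool, I.card ≤
      ∑ t : Fin n → Bool, (C.filter fun c => tr t c ∈ nbhd d I).card :=
    Finset.sum_le_sum fun t _ => replace_one hd I C hI hC hmax t
  rw [double_count C (fun v => v ∈ nbhd d I), hmax] at h1
  simp only [Finset.sum_const, Finset.card_univ, smul_eq_mul, Fintype.card_pi, Fintype.card_bool,
    Finset.prod_const, Fintype.card_fin, Finset.filter_univ_mem] at h1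
  rw [mul_comm]
  exact h1

lemma card_weight (n w : ℕ) :
    (univ.filter fun v : Fin n → Bool => weight v = w).card = n.choose w := by
  classical
  rw [← Finset.card_fin n, ← Finset.card_powersetCard, Finset.card_fin]
  refine Finset.card_bij (fun v _ => univ.filter fun i => v i = true) ?_ ?_ ?_
  · intro v hv
    rw [Finset.mem_filter] at hv
    rw [Finset.mem_powersetCard]
    exact ⟨Finset.subset_univ _, hv.2⟩
  · intro v _ u _ h
    funext i
    have : i ∈ (univ.filter fun i => v i = true) ↔ i ∈ (univ.filter fun i => u i = true) := by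
      rw [h]
    simp only [Finset.mem_filter, Finset.mem_univ, true_and] at this
    rcases hv : v i with _ | _ <;> rcases hu : u i with _ | _ <;> simp_all
  · intro s hs
    rw [Finset.mem_powersetCard] at hs
    refine ⟨fun i => decide (i ∈ s), ?_, ?_⟩
    · rw [Finset.mem_filter]
      refine ⟨Finset.mem_univ _, ?_⟩
      unfold weight
      simp [hs.2]
    · simp

/-- **The inequality of Elias and Bassalygo.** -/
theorem elias (n d w : ℕ) : A n d * n.choose w ≤ 2 ^ n * Aw n d w := by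
  classical
  obtain ⟨C, hC, hmax⟩ := exists_A n d
  have h1 : ∑ t : Fin n → Bool, (C.filter fun c => weight (tr t c) = w).card ≤
      ∑ _t : Fin n → Bool, Aw n d w := by
    apply Finset.sum_le_sum
    intro t _
    rw [← Finset.card_image_of_injective _ (tr_inj t)]
    apply card_le_Aw
    · intro x hx y hy hxy
      obtain ⟨x', hx', rfl⟩ := Finset.mem_image.1 hx
      obtain ⟨y', hy', rfl⟩ := Finset.mem_image.1 hy
      rw [dist_tr]
      exact hC x' (Finset.mem_filter.1 hx').1 y' (Finset.mem_filter.1 hy').1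
        (fun h => hxy (by rw [h]))
    · intro x hx
      obtain ⟨x', hx', rfl⟩ := Finset.mem_image.1 hx
      exact (Finset.mem_filter.1 hx').2
  rw [double_count C (fun v => weight v = w), hmax, card_weight] at h1
  simpa using h1

/-! ### Volumes -/

lemma sum_prod {n : ℕ} (f : Fin n → Bool → ℝ) :
    ∑ v : Fin n → Bool, ∏ i, f i (v i) = ∏ i, (f i false + f i true) := by
  have h := Finset.prod_univ_sum (fun _ : Fin n => (univ : Finset Bool)) f
  rw [Fintype.piFinset_univ] at h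
  rw [← h]
  apply Finset.prod_congr rfl
  intro i _
  rw [Fintype.sum_bool, add_comm]

lemma H_eq (x : ℝ) : H x * Real.log 2 = Real.binEntropy x := by
  have hlog : Real.log 2 ≠ 0 := (Real.log_pos (by norm_num)).ne'
  unfold H Real.binEntropy Real.logb
  rw [Real.log_inv, Real.log_inv]
  field_simp
  ring

lemma H_eq' (x : ℝ) : H x = Real.binEntropy x / Real.log 2 := by
  have hlog : Real.log 2 ≠ 0 := (Real.log_pos (by norm_num)).ne'
  rw [← H_eq, mul_div_cancel_right₀ _ hlog]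

lemma H_le_one (x : ℝ) : H x ≤ 1 := by
  have hlog : 0 < Real.log 2 := Real.log_pos (by norm_num)
  rw [H_eq', div_le_one hlog]
  exact Real.binEntropy_le_log_two

lemma H_cont : Continuous H := by
  have : H = fun x => Real.binEntropy x / Real.log 2 := funext H_eq'
  rw [this]
  exact Real.binEntropy_continuous.div_const _

lemma two_rpow (x : ℝ) : (2 : ℝ) ^ x = Real.exp (Real.log 2 * x) :=
  Real.rpow_def_of_pos (by norm_num) x

lemma pow_lower {p : ℝ} (hp0 : 0 < p) (hp : p ≤ 1 / 2) {n k : ℕ} (hkn : k ≤ n)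
    (hk : (k : ℝ) ≤ p * n) : (2 : ℝ) ^ (-(H p * n)) ≤ p ^ k * (1 - p) ^ (n - k) := by
  have h1p : 0 < 1 - p := by linarith
  have e1 : p ^ k * (1 - p) ^ (n - k) =
      Real.exp (k * Real.log p + (n - k : ℝ) * Real.log (1 - p)) := by
    rw [Real.exp_add, mul_comm (k : ℝ), Real.exp_mul, Real.exp_log hp0, Real.rpow_natCast,
      mul_comm ((n : ℝ) - k), Real.exp_mul, Real.exp_log h1p, ← Nat.cast_sub hkn,
      Real.rpow_natCast]
  rw [two_rpow, e1]
  apply Real.exp_le_exp.2
  have e2 : Real.log 2 * -(H p * n) = p * n * Real.log p + (1 - p) * n * Real.log (1 - p) := by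
    have := H_eq p
    unfold Real.binEntropy at this
    rw [Real.log_inv, Real.log_inv] at this
    calc Real.log 2 * -(H p * n) = -(H p * Real.log 2) * n := by ring
      _ = _ := by rw [this]; ring
  rw [e2]
  have h3 : Real.log p ≤ Real.log (1 - p) := Real.log_le_log hp0 (by linarith)
  nlinarith

lemma prod_ite_eq {n : ℕ} (S : Fin n → Prop) [DecidablePred S] (α β : ℝ) :
    ∏ i, (if S i then α else β) = α ^ (univ.filter S).card * β ^ (n - (univ.filter S).card) := by
  classical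
  rw [Finset.prod_ite, Finset.prod_const, Finset.prod_const]
  congr 2
  have h := Finset.card_filter_add_card_filter_not (s := (univ : Finset (Fin n))) S
  rw [Finset.card_univ, Fintype.card_fin] at h
  omega

lemma weight_le {n : ℕ} (v : Fin n → Bool) : weight v ≤ n := by
  unfold weight
  refine (Finset.card_le_univ _).trans ?_
  simp

/-- the number of words of weight at most `p n` -/
lemma volume {p : ℝ} (hp0 : 0 < p) (hp : p ≤ 1 / 2) (n : ℕ) :
    ((univ.filter fun v : Fin n → Bool => (weight v : ℝ) ≤ p * n).card : ℝ) ≤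
      (2 : ℝ) ^ (H p * n) := by
  classical
  have h1 : ∑ v : Fin n → Bool, ∏ i, (if v i = true then p else 1 - p) = 1 := by
    have := sum_prod (n := n) (fun _ b => if b = true then p else 1 - p)
    rw [this]
    simp
  have h2 : ((univ.filter fun v : Fin n → Bool => (weight v : ℝ) ≤ p * n).card : ℝ) *
      (2 : ℝ) ^ (-(H p * n)) ≤ 1 := by
    rw [← h1, ← nsmul_eq_mul, ← Finset.sum_const]
    calc ∑ _v ∈ univ.filter (fun v : Fin n → Bool => (weight v : ℝ) ≤ p * n),
          (2 : ℝ) ^ (-(H p * n))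
        ≤ ∑ v ∈ univ.filter (fun v : Fin n → Bool => (weight v : ℝ) ≤ p * n),
          ∏ i, (if v i = true then p else 1 - p) := by
          apply Finset.sum_le_sum
          intro v hv
          rw [Finset.mem_filter] at hv
          rw [prod_ite_eq (fun i => v i = true)]
          exact pow_lower hp0 hp (weight_le v) hv.2
      _ ≤ ∑ v : Fin n → Bool, ∏ i, (if v i = true then p else 1 - p) := by
          apply Finset.sum_le_sum_of_subset_of_nonneg (Finset.subset_univ _)
          intro v _ _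
          apply Finset.prod_nonneg
          intro i _
          split_ifs <;> linarith
  rw [Real.rpow_neg (by norm_num), ← div_eq_mul_inv, div_le_one (by positivity)] at h2
  exact h2

lemma exp_le {t : ℝ} (h0 : 0 ≤ t) (h1 : t ≤ 1) : Real.exp t ≤ 1 + t + t ^ 2 := by
  have h := Real.abs_exp_sub_one_sub_id_le (x := t) (by rw [abs_of_nonneg h0]; exact h1)
  have := (abs_le.1 h).2
  linarith

lemma mgf {θ m : ℝ} (h0 : 0 ≤ θ) (h1 : θ ≤ 1) (hm0 : 0 ≤ m) (hm1 : m ≤ 1) :
    m * Real.exp θ + (1 - m) ≤ Real.exp (θ * m + θ ^ 2) := by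
  have h2 := exp_le h0 h1
  have h3 := Real.add_one_le_exp (θ * m + θ ^ 2)
  nlinarith [mul_nonneg hm0 (sq_nonneg θ), mul_le_mul_of_nonneg_left h2 hm0,
    mul_le_mul_of_nonneg_right hm1 (sq_nonneg θ)]

/-- heavy words are rare in the ball with radius `δ n` around a word of weight at most `ω n` -/
lemma tail {δ ω p : ℝ} (hδ0 : 0 < δ) (hδ : δ ≤ 1 / 2) (hω : 0 ≤ ω) (hp : p ≤ 1 / 2)
    (hc : conv ω δ < p) {n : ℕ} (x : Fin n → Bool) (hx : (weight x : ℝ) ≤ ω * n) :
    ((univ.filter fun v : Fin n → Bool => (hammingDist x v : ℝ) ≤ δ * n ∧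
      p * n < weight v).card : ℝ) ≤
      (2 : ℝ) ^ (H δ * n) * Real.exp (-((p - conv ω δ) ^ 2 * n / 4)) := by
  classical
  set θ : ℝ := (p - conv ω δ) / 2 with hθ
  have hθ0 : 0 ≤ θ := by rw [hθ]; linarith
  have hconv0 : 0 ≤ conv ω δ := by
    unfold conv
    nlinarith [mul_nonneg hω (by linarith : (0 : ℝ) ≤ 1 - 2 * δ)]
  have hθ1 : θ ≤ 1 := by rw [hθ]; linarith
  have hn0 : (0 : ℝ) ≤ n := Nat.cast_nonneg n
  -- the product
  have h1 : ∑ v : Fin n → Bool, ∏ i, ((if x i ≠ v i then δ else 1 - δ) *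
      (if v i = true then Real.exp θ else 1)) =
      ∏ i, ((if x i = true then 1 - δ else δ) * Real.exp θ +
        (1 - (if x i = true then 1 - δ else δ))) := by
    have := sum_prod (n := n) (fun i b => (if x i ≠ b then δ else 1 - δ) *
      (if b = true then Real.exp θ else 1))
    rw [this]
    apply Finset.prod_congr rfl
    intro i _
    rcases x i with _ | _
    · simp; ring
    · simp; ring
  have h2 : ∏ i : Fin n, ((if x i = true then 1 - δ else δ) * Real.exp θ +
        (1 - (if x i = true then 1 - δ else δ))) ≤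
      Real.exp (θ * (conv ω δ * n) + θ ^ 2 * n) := by
    calc ∏ i : Fin n, ((if x i = true then 1 - δ else δ) * Real.exp θ +
        (1 - (if x i = true then 1 - δ else δ)))
        ≤ ∏ i : Fin n, Real.exp (θ * (if x i = true then 1 - δ else δ) + θ ^ 2) := by
          apply Finset.prod_le_prod
          · intro i _
            have := Real.exp_pos θ
            split_ifs <;> nlinarith
          · intro i _
            apply mgf hθ0 hθ1 <;> split_ifs <;> linarith
      _ = Real.exp (∑ i : Fin n, (θ * (if x i = true then 1 - δ else δ) + θ ^ 2)) := by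
          rw [Real.exp_sum]
      _ ≤ Real.exp (θ * (conv ω δ * n) + θ ^ 2 * n) := by
          apply Real.exp_le_exp.2
          rw [Finset.sum_add_distrib, ← Finset.mul_sum]
          have e1 : ∑ i : Fin n, (if x i = true then 1 - δ else δ) =
              (weight x : ℝ) * (1 - 2 * δ) + δ * n := by
            have e2 : ∀ i : Fin n, (if x i = true then 1 - δ else δ) =
                (if x i = true then 1 - 2 * δ else 0) + δ := by
              intro i
              split_ifs <;> ring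
            simp_rw [e2]
            rw [Finset.sum_add_distrib, ← Finset.sum_filter, Finset.sum_const, Finset.sum_const]
            simp [weight]
            ring
          rw [e1]
          have e3 : (weight x : ℝ) * (1 - 2 * δ) + δ * n ≤ conv ω δ * n := by
            unfold conv
            nlinarith [mul_le_mul_of_nonneg_right hx (by linarith : (0 : ℝ) ≤ 1 - 2 * δ)]
          have e4 : ∑ _i : Fin n, θ ^ 2 = θ ^ 2 * n := by
            simp; ring
          rw [e4]
          have := mul_le_mul_of_nonneg_left e3 hθ0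
          linarith
  have h3 : ((univ.filter fun v : Fin n → Bool => (hammingDist x v : ℝ) ≤ δ * n ∧
      p * n < weight v).card : ℝ) * ((2 : ℝ) ^ (-(H δ * n)) * Real.exp (θ * (p * n))) ≤
      Real.exp (θ * (conv ω δ * n) + θ ^ 2 * n) := by
    refine le_trans ?_ h2
    rw [← h1, ← nsmul_eq_mul, ← Finset.sum_const]
    calc ∑ _v ∈ univ.filter (fun v : Fin n → Bool => (hammingDist x v : ℝ) ≤ δ * n ∧
          p * n < weight v), (2 : ℝ) ^ (-(H δ * n)) * Real.exp (θ * (p * n))
        ≤ ∑ v ∈ univ.filter (fun v : Fin n → Bool => (hammingDist x v : ℝ) ≤ δ * n ∧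
          p * n < weight v), ∏ i, ((if x i ≠ v i then δ else 1 - δ) *
            (if v i = true then Real.exp θ else 1)) := by
          apply Finset.sum_le_sum
          intro v hv
          rw [Finset.mem_filter] at hv
          rw [Finset.prod_mul_distrib, prod_ite_eq (fun i => x i ≠ v i),
            prod_ite_eq (fun i => v i = true)]
          have g1 : (2 : ℝ) ^ (-(H δ * n)) ≤ δ ^ hammingDist x v * (1 - δ) ^ (n - hammingDist x v) :=
            pow_lower hδ0 hδ (by
              have := hammingDist_le_card_fintype (x := x) (y := v)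
              simpa using this) hv.2.1
          have g2 : Real.exp (θ * (p * n)) ≤ Real.exp θ ^ weight v * 1 ^ (n - weight v) := by
            rw [one_pow, mul_one, ← Real.exp_nat_mul]
            apply Real.exp_le_exp.2
            have := mul_le_mul_of_nonneg_left hv.2.2.le hθ0
            linarith
          exact mul_le_mul g1 g2 (Real.exp_pos _).le (by
            have : 0 ≤ 1 - δ := by linarith
            positivity)
      _ ≤ ∑ v : Fin n → Bool, ∏ i, ((if x i ≠ v i then δ else 1 - δ) *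
            (if v i = true then Real.exp θ else 1)) := by
          apply Finset.sum_le_sum_of_subset_of_nonneg (Finset.subset_univ _)
          intro v _ _
          apply Finset.prod_nonneg
          intro i _
          have := Real.exp_pos θ
          have : 0 ≤ 1 - δ := by linarith
          split_ifs <;> positivity
  have h4 : (2 : ℝ) ^ (-(H δ * n)) * Real.exp (θ * (p * n)) *
      ((2 : ℝ) ^ (H δ * n) * Real.exp (-((p - conv ω δ) ^ 2 * n / 4))) =
      Real.exp (θ * (conv ω δ * n) + θ ^ 2 * n) := by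
    have e1 : (2 : ℝ) ^ (-(H δ * n)) * (2 : ℝ) ^ (H δ * n) = 1 := by
      rw [← Real.rpow_add (by norm_num)]
      simp
    calc (2 : ℝ) ^ (-(H δ * n)) * Real.exp (θ * (p * n)) *
      ((2 : ℝ) ^ (H δ * n) * Real.exp (-((p - conv ω δ) ^ 2 * n / 4)))
        = ((2 : ℝ) ^ (-(H δ * n)) * (2 : ℝ) ^ (H δ * n)) * (Real.exp (θ * (p * n)) *
          Real.exp (-((p - conv ω δ) ^ 2 * n / 4))) := by ring
      _ = Real.exp (θ * (p * n) + -((p - conv ω δ) ^ 2 * n / 4)) := by
          rw [e1, one_mul, Real.exp_add]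
      _ = _ := by
          congr 1
          rw [hθ]
          ring
  rw [← h4] at h3
  have h5 : 0 < (2 : ℝ) ^ (-(H δ * n)) * Real.exp (θ * (p * n)) := by positivity
  rw [mul_comm] at h3
  exact le_of_mul_le_mul_left h3 h5

/-- the size of `N(I)` for a code `I` whose words have weight at most `ω n` -/
lemma nbhd_card {δ ω p : ℝ} (hδ0 : 0 < δ) (hδ : δ ≤ 1 / 2) (hω : 0 ≤ ω) (hp : p ≤ 1 / 2)
    (hc : conv ω δ < p) {n : ℕ} (I : Finset (Fin n → Bool))
    (hI : ∀ x ∈ I, (weight x : ℝ) ≤ ω * n) :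
    ((nbhd ⌈δ * n⌉₊ I).card : ℝ) ≤ (2 : ℝ) ^ (H p * n) +
      I.card * ((2 : ℝ) ^ (H δ * n) * Real.exp (-((p - conv ω δ) ^ 2 * n / 4))) := by
  classical
  have hconv0 : 0 ≤ conv ω δ := by
    unfold conv
    nlinarith [mul_nonneg hω (by linarith : (0 : ℝ) ≤ 1 - 2 * δ)]
  have hsub : nbhd ⌈δ * n⌉₊ I ⊆ (univ.filter fun v : Fin n → Bool => (weight v : ℝ) ≤ p * n) ∪
      I.biUnion (fun x => univ.filter fun v : Fin n → Bool => (hammingDist x v : ℝ) ≤ δ * n ∧
        p * n < weight v) := by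
    intro v hv
    rw [mem_nbhd] at hv
    obtain ⟨x, hx, hxv⟩ := hv
    rw [Finset.mem_union, Finset.mem_filter, Finset.mem_biUnion]
    by_cases h : (weight v : ℝ) ≤ p * n
    · exact Or.inl ⟨Finset.mem_univ _, h⟩
    · refine Or.inr ⟨x, hx, ?_⟩
      rw [Finset.mem_filter]
      exact ⟨Finset.mem_univ _, (Nat.lt_ceil.1 hxv).le, not_le.1 h⟩
  have h1 := (Finset.card_le_card hsub).trans (Finset.card_union_le _ _)
  have h2 : (I.biUnion (fun x => univ.filter fun v : Fin n → Bool =>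
      (hammingDist x v : ℝ) ≤ δ * n ∧ p * n < weight v)).card ≤
      ∑ x ∈ I, (univ.filter fun v : Fin n → Bool =>
      (hammingDist x v : ℝ) ≤ δ * n ∧ p * n < weight v).card := Finset.card_biUnion_le
  have h3 : ((nbhd ⌈δ * n⌉₊ I).card : ℝ) ≤
      ((univ.filter fun v : Fin n → Bool => (weight v : ℝ) ≤ p * n).card : ℝ) +
      ∑ x ∈ I, ((univ.filter fun v : Fin n → Bool =>
      (hammingDist x v : ℝ) ≤ δ * n ∧ p * n < weight v).card : ℝ) := by
    exact_mod_cast h1.trans (Nat.add_le_add_left h2 _)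
  refine h3.trans (add_le_add (volume (hconv0.trans_lt hc) hp n) ?_)
  rw [← nsmul_eq_mul, ← Finset.sum_const]
  exact Finset.sum_le_sum fun x hx => tail hδ0 hδ hω hp hc x (hI x hx)

/-! ### Rates -/

lemma A_pos (n d : ℕ) : 1 ≤ A n d := by
  have h : IsCode d ({fun _ => false} : Finset (Fin n → Bool)) := by
    intro x hx y hy hxy
    rw [Finset.mem_singleton] at hx hy
    exact absurd (hx.trans hy.symm) hxy
  have := card_le_A h
  simpa using this

lemma A_le (n d : ℕ) : A n d ≤ 2 ^ n := by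
  obtain ⟨C, -, hC⟩ := exists_A n d
  rw [← hC]
  refine (Finset.card_le_univ C).trans ?_
  simp

lemma Aw_le (n d w : ℕ) : Aw n d w ≤ 2 ^ n := by
  obtain ⟨C, -, -, hC⟩ := exists_Aw n d w
  rw [← hC]
  refine (Finset.card_le_univ C).trans ?_
  simp

lemma Aw_pos {n w : ℕ} (d : ℕ) (hw : w ≤ n) : 1 ≤ Aw n d w := by
  have h : 0 < (univ.filter fun v : Fin n → Bool => weight v = w).card := by
    rw [card_weight]
    exact Nat.choose_pos hw
  obtain ⟨v, hv⟩ := Finset.card_pos.1 h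
  rw [Finset.mem_filter] at hv
  have hc : IsCode d ({v} : Finset (Fin n → Bool)) := by
    intro x hx y hy hxy
    rw [Finset.mem_singleton] at hx hy
    exact absurd (hx.trans hy.symm) hxy
  have := card_le_Aw (w := w) hc (by
    intro x hx
    rw [Finset.mem_singleton] at hx
    rw [hx]; exact hv.2)
  simpa using this

lemma logb_nonneg_nat (k : ℕ) : 0 ≤ Real.logb 2 (k : ℝ) := by
  rcases Nat.eq_zero_or_pos k with h | h
  · rw [h]; simp
  · exact Real.logb_nonneg (by norm_num) (by exact_mod_cast h)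

lemma rate_mem {f : ℕ → ℕ} (hf : ∀ n, f n ≤ 2 ^ n) (n : ℕ) :
    0 ≤ Real.logb 2 (f n : ℝ) / n ∧ Real.logb 2 (f n : ℝ) / n ≤ 1 := by
  refine ⟨div_nonneg (logb_nonneg_nat _) (Nat.cast_nonneg _), ?_⟩
  rcases Nat.eq_zero_or_pos n with h | h
  · rw [h]; simp
  have hn : (0 : ℝ) < n := by exact_mod_cast h
  rw [div_le_one hn]
  rcases Nat.eq_zero_or_pos (f n) with h0 | h0
  · rw [h0]; simp
  have h1 : (f n : ℝ) ≤ 2 ^ n := by exact_mod_cast hf n
  calc Real.logb 2 (f n : ℝ) ≤ Real.logb 2 (2 ^ n) :=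
        Real.logb_le_logb_of_le (by norm_num) (by exact_mod_cast h0) h1
    _ = n := by rw [Real.logb_pow]; simp

section Limits

variable {f g : ℕ → ℝ}

lemma bdd_le (hf : ∀ n, 0 ≤ f n ∧ f n ≤ 1) : IsBoundedUnder (· ≤ ·) atTop f :=
  isBoundedUnder_of ⟨1, fun n => (hf n).2⟩

lemma bdd_ge (hf : ∀ n, 0 ≤ f n ∧ f n ≤ 1) : IsBoundedUnder (· ≥ ·) atTop f :=
  isBoundedUnder_of ⟨0, fun n => (hf n).1⟩

/-- transfer of inequalities to the upper limits -/
lemma limsup_transfer (hf : ∀ n, 0 ≤ f n ∧ f n ≤ 1) (hg : ∀ n, 0 ≤ g n ∧ g n ≤ 1)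
    (φ : ℝ → ℝ) (hφ : Continuous φ) (hmono : Monotone φ) (e : ℕ → ℝ) (he : Tendsto e atTop (nhds 0))
    (h : ∀ᶠ n in atTop, φ (f n) - e n ≤ g n) : φ (limsup f atTop) ≤ limsup g atTop := by
  apply le_of_forall_lt
  intro c hc
  -- a point `t` below the upper limit
  obtain ⟨t, ht1, ht2⟩ : ∃ t, t < limsup f atTop ∧ c < φ t := by
    have h1 : ∀ᶠ t in nhds (limsup f atTop), c < φ t :=
      (hφ.tendsto _).eventually (lt_mem_nhds hc)
    obtain ⟨ε, hε, hball⟩ := Metric.eventually_nhds_iff.1 h1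
    refine ⟨limsup f atTop - ε / 2, by linarith, hball ?_⟩
    rw [Real.dist_eq, abs_lt]
    constructor <;> linarith
  obtain ⟨c', hc'1, hc'2⟩ := exists_between ht2
  have h2 : ∃ᶠ n in atTop, t < f n :=
    frequently_lt_of_lt_limsup (bdd_ge hf).isCoboundedUnder_flip ht1
  have h3 : ∀ᶠ n in atTop, e n < φ t - c' := he.eventually (gt_mem_nhds (by linarith))
  have h4 : ∃ᶠ n in atTop, c' ≤ g n := by
    refine (h2.and_eventually (h3.and h)).mono ?_
    rintro n ⟨a1, a2, a3⟩
    have := hmono a1.le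
    linarith
  exact hc'1.trans_le (le_limsup_of_frequently_le h4 (bdd_le hg))

/-- transfer of inequalities to the lower limits -/
lemma liminf_transfer (hf : ∀ n, 0 ≤ f n ∧ f n ≤ 1) (hg : ∀ n, 0 ≤ g n ∧ g n ≤ 1)
    (φ : ℝ → ℝ) (hφ : Continuous φ) (hmono : Monotone φ) (e : ℕ → ℝ) (he : Tendsto e atTop (nhds 0))
    (h : ∀ᶠ n in atTop, φ (f n) - e n ≤ g n) : φ (liminf f atTop) ≤ liminf g atTop := by
  apply le_of_forall_lt
  intro c hc
  obtain ⟨t, ht1, ht2⟩ : ∃ t, t < liminf f atTop ∧ c < φ t := by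
    have h1 : ∀ᶠ t in nhds (liminf f atTop), c < φ t :=
      (hφ.tendsto _).eventually (lt_mem_nhds hc)
    obtain ⟨ε, hε, hball⟩ := Metric.eventually_nhds_iff.1 h1
    refine ⟨liminf f atTop - ε / 2, by linarith, hball ?_⟩
    rw [Real.dist_eq, abs_lt]
    constructor <;> linarith
  obtain ⟨c', hc'1, hc'2⟩ := exists_between ht2
  have h2 : ∀ᶠ n in atTop, t < f n := eventually_lt_of_lt_liminf ht1 (bdd_ge hf)
  have h3 : ∀ᶠ n in atTop, e n < φ t - c' := he.eventually (gt_mem_nhds (by linarith))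
  have h4 : ∀ᶠ n in atTop, c' ≤ g n := by
    filter_upwards [h2, h3, h] with n a1 a2 a3
    have := hmono a1.le
    linarith
  exact hc'1.trans_le (le_liminf_of_le (bdd_le hg).isCoboundedUnder_flip h4)

end Limits

/-- the inequality for one length -/
lemma finite_bound {δ ω p : ℝ} (hδ0 : 0 < δ) (hδ : δ < 1 / 2) (hω : 0 ≤ ω) (hω1 : ω ≤ 1)
    (hp : p ≤ 1 / 2) (hc : conv ω δ < p) {n : ℕ} (hn : 1 ≤ n) :
    1 - H δ + min (Real.logb 2 (Aw n ⌈δ * n⌉₊ ⌊ω * n⌋₊) / n + H δ - H p)
      ((p - conv ω δ) ^ 2 / (4 * Real.log 2)) - 1 / n ≤ Real.logb 2 (A n ⌈δ * n⌉₊) / n := by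
  have hn0 : (0 : ℝ) < n := by exact_mod_cast hn
  have hlog : 0 < Real.log 2 := Real.log_pos (by norm_num)
  have hd : 1 ≤ ⌈δ * n⌉₊ := Nat.one_le_iff_ne_zero.2 (Nat.ceil_pos.2 (by positivity)).ne'
  have hw : ⌊ω * n⌋₊ ≤ n := by
    apply Nat.floor_le_of_le
    nlinarith
  obtain ⟨I, hI1, hI2, hI3⟩ := exists_Aw n ⌈δ * n⌉₊ ⌊ω * n⌋₊
  have hpos : 1 ≤ Aw n ⌈δ * n⌉₊ ⌊ω * n⌋₊ := Aw_pos _ hw
  set a' : ℕ := Aw n ⌈δ * n⌉₊ ⌊ω * n⌋₊ with ha'
  set b' : ℕ := A n ⌈δ * n⌉₊ with hb'
  have hb1 : 1 ≤ b' := A_pos _ _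
  have h1 := replacement hd I hI2
  rw [hI3] at h1
  have h2 := nbhd_card hδ0 hδ.le hω hp hc I (by
    intro x hx
    rw [hI1 x hx]
    exact Nat.floor_le (by positivity))
  rw [hI3] at h2
  have h1R : (a' : ℝ) * 2 ^ n ≤ b' * ((nbhd ⌈δ * n⌉₊ I).card : ℝ) := by exact_mod_cast h1
  set κ : ℝ := (p - conv ω δ) ^ 2 / (4 * Real.log 2) with hκ
  set α : ℝ := Real.logb 2 a' / n with hα
  have ha0 : (0 : ℝ) < a' := by exact_mod_cast hpos
  have hb0 : (0 : ℝ) < b' := by exact_mod_cast hb1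
  have ea : (a' : ℝ) = (2 : ℝ) ^ (α * n) := by
    rw [hα, div_mul_cancel₀ _ hn0.ne', Real.rpow_logb (by norm_num) (by norm_num) ha0]
  have eb : (b' : ℝ) = (2 : ℝ) ^ (Real.logb 2 b') := by
    rw [Real.rpow_logb (by norm_num) (by norm_num) hb0]
  have eκ : Real.exp (-((p - conv ω δ) ^ 2 * n / 4)) = (2 : ℝ) ^ (-(κ * n)) := by
    rw [two_rpow]
    congr 1
    rw [hκ]
    field_simp
  rw [eκ, ea] at h2
  set m : ℝ := min (α + H δ - H p) κ with hm
  have h3 : (2 : ℝ) ^ (H p * n) + (2 : ℝ) ^ (α * n) * ((2 : ℝ) ^ (H δ * n) * (2 : ℝ) ^ (-(κ * n))) ≤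
      2 ^ (1 : ℝ) * ((2 : ℝ) ^ (α * n) * (2 : ℝ) ^ ((H δ - m) * n)) := by
    have e1 : (2 : ℝ) ^ (H p * n) ≤ (2 : ℝ) ^ (α * n) * (2 : ℝ) ^ ((H δ - m) * n) := by
      rw [← Real.rpow_add (by norm_num)]
      apply Real.rpow_le_rpow_of_exponent_le (by norm_num)
      have : m ≤ α + H δ - H p := min_le_left _ _
      nlinarith
    have e2 : (2 : ℝ) ^ (α * n) * ((2 : ℝ) ^ (H δ * n) * (2 : ℝ) ^ (-(κ * n))) ≤
        (2 : ℝ) ^ (α * n) * (2 : ℝ) ^ ((H δ - m) * n) := by
      apply mul_le_mul_of_nonneg_left _ (by positivity)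
      rw [← Real.rpow_add (by norm_num)]
      apply Real.rpow_le_rpow_of_exponent_le (by norm_num)
      have : m ≤ κ := min_le_right _ _
      nlinarith
    rw [Real.rpow_one]
    linarith
  have h4 : (2 : ℝ) ^ (α * n) * (2 : ℝ) ^ (n : ℝ) ≤ (2 : ℝ) ^ (Real.logb 2 b') *
      (2 ^ (1 : ℝ) * ((2 : ℝ) ^ (α * n) * (2 : ℝ) ^ ((H δ - m) * n))) := by
    calc (2 : ℝ) ^ (α * n) * (2 : ℝ) ^ (n : ℝ) = (a' : ℝ) * 2 ^ n := by
          rw [← ea, Real.rpow_natCast]
      _ ≤ b' * ((nbhd ⌈δ * n⌉₊ I).card : ℝ) := h1R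
      _ ≤ b' * (2 ^ (1 : ℝ) * ((2 : ℝ) ^ (α * n) * (2 : ℝ) ^ ((H δ - m) * n))) :=
          mul_le_mul_of_nonneg_left (h2.trans h3) hb0.le
      _ = _ := by rw [← eb]
  rw [← Real.rpow_add (by norm_num), ← Real.rpow_add (by norm_num), ← Real.rpow_add (by norm_num),
    ← Real.rpow_add (by norm_num), Real.rpow_le_rpow_left_iff (by norm_num)] at h4
  have h5 : (1 - H δ + m) * n - 1 ≤ Real.logb 2 b' := by nlinarith
  rw [le_div_iff₀ hn0]
  have h6 : (1 - H δ + m - 1 / n) * n = (1 - H δ + m) * n - 1 := by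
    field_simp
  linarith

lemma tendsto_one_div : Tendsto (fun n : ℕ => 1 / (n : ℝ)) atTop (nhds 0) :=
  tendsto_one_div_atTop_nhds_zero_nat

lemma rateA (δ : ℝ) (n : ℕ) : 0 ≤ Real.logb 2 (A n ⌈δ * n⌉₊ : ℝ) / n ∧
    Real.logb 2 (A n ⌈δ * n⌉₊ : ℝ) / n ≤ 1 :=
  rate_mem (f := fun n => A n ⌈δ * n⌉₊) (fun _ => A_le _ _) n

lemma rateAw (ω δ : ℝ) (n : ℕ) : 0 ≤ Real.logb 2 (Aw n ⌈δ * n⌉₊ ⌊ω * n⌋₊ : ℝ) / n ∧
    Real.logb 2 (Aw n ⌈δ * n⌉₊ ⌊ω * n⌋₊ : ℝ) / n ≤ 1 :=
  rate_mem (f := fun n => Aw n ⌈δ * n⌉₊ ⌊ω * n⌋₊) (fun _ => Aw_le _ _ _) n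

/-- the quantitative form -/
theorem quantitative {δ ω p : ℝ} (hδ0 : 0 < δ) (hδ : δ < 1 / 2) (hω : 0 ≤ ω)
    (hp : p ≤ 1 / 2) (hc : conv ω δ < p) :
    1 - H δ + min (a ω δ + H δ - H p) ((p - conv ω δ) ^ 2 / (4 * Real.log 2)) ≤ R δ ∧
    1 - H δ + min (alow ω δ + H δ - H p) ((p - conv ω δ) ^ 2 / (4 * Real.log 2)) ≤ Rlow δ := by
  have hω1 : ω ≤ 1 := by
    unfold conv at hc
    by_contra hcon
    push Not at hcon
    nlinarith
  have hcont : Continuous fun t : ℝ =>
      1 - H δ + min (t + H δ - H p) ((p - conv ω δ) ^ 2 / (4 * Real.log 2)) := by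
    fun_prop
  have hmono : Monotone fun t : ℝ =>
      1 - H δ + min (t + H δ - H p) ((p - conv ω δ) ^ 2 / (4 * Real.log 2)) := by
    intro s t hst
    have : min (s + H δ - H p) ((p - conv ω δ) ^ 2 / (4 * Real.log 2)) ≤
        min (t + H δ - H p) ((p - conv ω δ) ^ 2 / (4 * Real.log 2)) :=
      min_le_min (by linarith) le_rfl
    simp only
    linarith
  have hev : ∀ᶠ n : ℕ in atTop, 1 - H δ + min (Real.logb 2 (Aw n ⌈δ * n⌉₊ ⌊ω * n⌋₊) / n + H δ - H p)
      ((p - conv ω δ) ^ 2 / (4 * Real.log 2)) - 1 / n ≤ Real.logb 2 (A n ⌈δ * n⌉₊) / n := by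
    filter_upwards [eventually_ge_atTop 1] with n hn
    exact finite_bound hδ0 hδ hω hω1 hp hc hn
  exact ⟨limsup_transfer (rateAw ω δ) (rateA δ) _ hcont hmono _ tendsto_one_div hev,
    liminf_transfer (rateAw ω δ) (rateA δ) _ hcont hmono _ tendsto_one_div hev⟩

/-! ### The converse -/

lemma choose_ratio {n w : ℕ} (h : n ≤ 4 * w + 3) (j : ℕ) :
    n.choose (w + j) ≤ 3 ^ j * n.choose w := by
  induction j with
  | zero => simp
  | succ j ih =>
    have h1 := Nat.choose_succ_right_eq n (w + j)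
    have h2 : n.choose (w + j + 1) * (w + j + 1) ≤ (3 * n.choose (w + j)) * (w + j + 1) := by
      rw [h1]
      have : n - (w + j) ≤ 3 * (w + j + 1) := by omega
      calc n.choose (w + j) * (n - (w + j)) ≤ n.choose (w + j) * (3 * (w + j + 1)) :=
            Nat.mul_le_mul_left _ this
        _ = (3 * n.choose (w + j)) * (w + j + 1) := by ring
    have h3 := Nat.le_of_mul_le_mul_right h2 (by omega)
    calc n.choose (w + (j + 1)) ≤ 3 * n.choose (w + j) := h3
      _ ≤ 3 * (3 ^ j * n.choose w) := Nat.mul_le_mul_left _ ih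
      _ = 3 ^ (j + 1) * n.choose w := by ring

lemma two_pow_le (n : ℕ) : 2 ^ n ≤ (n + 1) * n.choose (n / 2) := by
  rw [← Nat.sum_range_choose]
  calc ∑ m ∈ range (n + 1), n.choose m ≤ ∑ _m ∈ range (n + 1), n.choose (n / 2) :=
        Finset.sum_le_sum fun m _ => Nat.choose_le_middle m n
    _ = (n + 1) * n.choose (n / 2) := by simp

lemma converse_finite {δ ω : ℝ} (hω : 1 / 4 < ω) (hω1 : ω < 1 / 2) :
    ∀ᶠ n : ℕ in atTop, (Real.logb 2 (A n ⌈δ * n⌉₊) / n - (1 - 2 * ω)) -
      (Real.logb 2 (n + 1) / n + 2 / n) ≤ Real.logb 2 (Aw n ⌈δ * n⌉₊ ⌊ω * n⌋₊) / n := by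
  have hlarge : ∀ᶠ n : ℕ in atTop, 1 ≤ (ω - 1 / 4) * (n : ℝ) := by
    have : Tendsto (fun n : ℕ => (ω - 1 / 4) * (n : ℝ)) atTop atTop :=
      tendsto_natCast_atTop_atTop.const_mul_atTop (by linarith)
    exact this.eventually_ge_atTop 1
  filter_upwards [hlarge, eventually_ge_atTop 1] with n hn1 hn
  have hn0 : (0 : ℝ) < n := by exact_mod_cast hn
  set w : ℕ := ⌊ω * n⌋₊ with hwdef
  have hw1 : (w : ℝ) ≤ ω * n := Nat.floor_le (by positivity)
  have hw2 : ω * n < w + 1 := Nat.lt_floor_add_one _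
  have hw3 : n ≤ 4 * w + 3 := by
    have : (n : ℝ) < 4 * w + 4 := by nlinarith
    have : n < 4 * w + 4 := by exact_mod_cast this
    omega
  have hw4 : w ≤ n / 2 := by
    have : (w : ℝ) * 2 ≤ n := by nlinarith
    have : w * 2 ≤ n := by exact_mod_cast this
    omega
  have hwn : w ≤ n := by omega
  set j : ℕ := n / 2 - w with hj
  have hj1 : (j : ℝ) ≤ (1 / 2 - ω) * n + 1 := by
    have h1 : j + w = n / 2 := by omega
    have h2 : (j : ℝ) + w = ((n / 2 : ℕ) : ℝ) := by exact_mod_cast h1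
    have h3 : ((n / 2 : ℕ) : ℝ) ≤ n / 2 := Nat.cast_div_le
    nlinarith
  have hchoose : 2 ^ n ≤ (n + 1) * (4 ^ j * n.choose w) := by
    refine (two_pow_le n).trans (Nat.mul_le_mul_left _ ?_)
    have : w + j = n / 2 := by omega
    rw [← this]
    refine (choose_ratio hw3 j).trans (Nat.mul_le_mul_right _ ?_)
    exact Nat.pow_le_pow_left (by norm_num) j
  have hel := elias n ⌈δ * n⌉₊ w
  have hkey : A n ⌈δ * n⌉₊ ≤ (n + 1) * 4 ^ j * Aw n ⌈δ * n⌉₊ w := by
    have h1 : A n ⌈δ * n⌉₊ * 2 ^ n ≤ ((n + 1) * 4 ^ j * Aw n ⌈δ * n⌉₊ w) * 2 ^ n := by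
      calc A n ⌈δ * n⌉₊ * 2 ^ n ≤ A n ⌈δ * n⌉₊ * ((n + 1) * (4 ^ j * n.choose w)) :=
            Nat.mul_le_mul_left _ hchoose
        _ = (n + 1) * 4 ^ j * (A n ⌈δ * n⌉₊ * n.choose w) := by ring
        _ ≤ (n + 1) * 4 ^ j * (2 ^ n * Aw n ⌈δ * n⌉₊ w) := Nat.mul_le_mul_left _ hel
        _ = _ := by ring
    exact Nat.le_of_mul_le_mul_right h1 (by positivity)
  have hA1 : (1 : ℝ) ≤ A n ⌈δ * n⌉₊ := by exact_mod_cast A_pos _ _
  have hAw1 : (1 : ℝ) ≤ Aw n ⌈δ * n⌉₊ w := by exact_mod_cast Aw_pos _ hwn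
  have hlogs : Real.logb 2 (A n ⌈δ * n⌉₊) ≤
      Real.logb 2 (n + 1) + 2 * j + Real.logb 2 (Aw n ⌈δ * n⌉₊ w) := by
    have h1 : (A n ⌈δ * n⌉₊ : ℝ) ≤ ((n : ℝ) + 1) * 4 ^ j * Aw n ⌈δ * n⌉₊ w := by
      exact_mod_cast hkey
    have h2 := Real.logb_le_logb_of_le (b := 2) (by norm_num) (by linarith) h1
    have h4 : Real.logb 2 ((4 : ℝ) ^ j) = 2 * j := by
      rw [Real.logb_pow]
      have : Real.logb 2 4 = 2 := by
        rw [show (4 : ℝ) = 2 ^ (2 : ℝ) by norm_num, Real.logb_rpow (by norm_num) (by norm_num)]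
      rw [this]; ring
    rw [Real.logb_mul (by positivity) (by linarith), Real.logb_mul (by positivity) (by positivity),
      h4] at h2
    exact h2
  rw [div_sub' hn0.ne', ← add_div, ← sub_div, div_le_div_iff_of_pos_right hn0]
  nlinarith

lemma tendsto_log : Tendsto (fun n : ℕ => Real.logb 2 ((n : ℝ) + 1) / n + 2 / n) atTop (nhds 0) := by
  have h1 : Tendsto (fun n : ℕ => 2 / (n : ℝ)) atTop (nhds 0) :=
    tendsto_const_div_atTop_nhds_zero_nat 2
  have h2 : Tendsto (fun n : ℕ => Real.logb 2 ((n : ℝ) + 1) / n) atTop (nhds 0) := by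
    have h3 : Tendsto (fun n : ℕ => Real.log ((n + 1 : ℕ) : ℝ) / ((n + 1 : ℕ) : ℝ)) atTop (nhds 0) := by
      have h4 : Tendsto (fun x : ℝ => Real.log x / x) atTop (nhds 0) := by
        have := Real.isLittleO_log_id_atTop.tendsto_div_nhds_zero
        simpa using this
      exact h4.comp (tendsto_natCast_atTop_atTop.comp (tendsto_add_atTop_nat 1))
    have h5 : Tendsto (fun n : ℕ => (((n + 1 : ℕ) : ℝ) / n) / Real.log 2) atTop
        (nhds (1 / Real.log 2)) := by
      apply Tendsto.div_const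
      have h6 : Tendsto (fun n : ℕ => 1 + 1 / (n : ℝ)) atTop (nhds (1 + 0)) :=
        tendsto_const_nhds.add tendsto_one_div
      rw [add_zero] at h6
      refine h6.congr' ?_
      filter_upwards [eventually_ge_atTop 1] with n hn
      have hn0 : (n : ℝ) ≠ 0 := by
        have : n ≠ 0 := by omega
        exact_mod_cast this
      push_cast
      field_simp
    have h7 := h3.mul h5
    rw [zero_mul] at h7
    refine h7.congr' ?_
    filter_upwards [eventually_ge_atTop 1] with n hn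
    have hn0 : (n : ℝ) ≠ 0 := by
      have : n ≠ 0 := by omega
      exact_mod_cast this
    have hn1 : ((n : ℝ) + 1) ≠ 0 := by positivity
    have hlog : Real.log 2 ≠ 0 := (Real.log_pos (by norm_num)).ne'
    unfold Real.logb
    push_cast
    field_simp
  simpa using h2.add h1

theorem converse {δ ω : ℝ} (hω : 1 / 4 < ω) (hω1 : ω < 1 / 2) :
    R δ - (1 - 2 * ω) ≤ a ω δ ∧ Rlow δ - (1 - 2 * ω) ≤ alow ω δ := by
  have hcont : Continuous fun t : ℝ => t - (1 - 2 * ω) := by fun_prop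
  have hmono : Monotone fun t : ℝ => t - (1 - 2 * ω) := by
    intro s t hst
    simp only
    linarith
  exact ⟨limsup_transfer (rateA δ) (rateAw ω δ) _ hcont hmono _ tendsto_log
    (converse_finite hω hω1), liminf_transfer (rateA δ) (rateAw ω δ) _ hcont hmono _ tendsto_log
    (converse_finite hω hω1)⟩

/-- **The criterion.**  Let `0 < δ < 1/2`.
(1) The rate `R(δ)` exceeds the exponent `1 - H(δ)` of Gilbert and Varshamov if and only if for some
`0 < ω < 1/2` the constant weight codes of relative weight `ω` have rate above `H(ω * δ) - H(δ)`.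
(2) The same for the lower limits.
(3) Quantitatively, if `ω * δ < p ≤ 1/2`, then
`R(δ) ≥ 1 - H(δ) + min (a(ω, δ) + H(δ) - H(p), (p - ω * δ)² / (4 ln 2))`. -/
theorem result (δ : ℝ) (h0 : 0 < δ) (h1 : δ < 1 / 2) :
    (1 - H δ < R δ ↔ ∃ ω : ℝ, 0 < ω ∧ ω < 1 / 2 ∧ H (conv ω δ) - H δ < a ω δ) ∧
    (1 - H δ < Rlow δ ↔ ∃ ω : ℝ, 0 < ω ∧ ω < 1 / 2 ∧ H (conv ω δ) - H δ < alow ω δ) ∧
    ∀ ω p : ℝ, 0 ≤ ω → conv ω δ < p → p ≤ 1 / 2 →
      1 - H δ + min (a ω δ + H δ - H p) ((p - conv ω δ) ^ 2 / (4 * Real.log 2)) ≤ R δ ∧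
      1 - H δ + min (alow ω δ + H δ - H p) ((p - conv ω δ) ^ 2 / (4 * Real.log 2)) ≤ Rlow δ := by
  have hlog : 0 < Real.log 2 := Real.log_pos (by norm_num)
  have hconv : ∀ ω : ℝ, ω < 1 / 2 → conv ω δ < 1 / 2 := by
    intro ω hω
    unfold conv
    nlinarith
  -- a suitable `p`
  have hp : ∀ ω b : ℝ, ω < 1 / 2 → H (conv ω δ) - H δ < b →
      ∃ p : ℝ, conv ω δ < p ∧ p ≤ 1 / 2 ∧
        0 < min (b + H δ - H p) ((p - conv ω δ) ^ 2 / (4 * Real.log 2)) := by
    intro ω b hω hb
    have h2 : ∀ᶠ t in nhds (conv ω δ), H t < b + H δ :=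
      (H_cont.tendsto _).eventually (gt_mem_nhds (by linarith))
    obtain ⟨ε, hε, hball⟩ := Metric.eventually_nhds_iff.1 h2
    have h3 := hconv ω hω
    refine ⟨min (1 / 2) (conv ω δ + ε / 2), ?_, min_le_left _ _, ?_⟩
    · exact lt_min h3 (by linarith)
    · have h4 : conv ω δ < min (1 / 2) (conv ω δ + ε / 2) := lt_min h3 (by linarith)
      apply lt_min
      · have h5 : H (min (1 / 2) (conv ω δ + ε / 2)) < b + H δ := by
          apply hball
          rw [Real.dist_eq, abs_of_pos (by linarith)]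
          have := min_le_right (1 / 2 : ℝ) (conv ω δ + ε / 2)
          linarith
        linarith
      · have : 0 < min (1 / 2) (conv ω δ + ε / 2) - conv ω δ := by linarith
        positivity
  -- a suitable `ω`
  have hω : ∀ r : ℝ, 1 - H δ < r → ∃ ω : ℝ, 1 / 4 < ω ∧ ω < 1 / 2 ∧
      H (conv ω δ) - H δ < r - (1 - 2 * ω) := by
    intro r hr
    refine ⟨max (3 / 8) (1 / 2 - (r - (1 - H δ)) / 4), ?_, ?_, ?_⟩
    · exact lt_of_lt_of_le (by norm_num) (le_max_left _ _)
    · exact max_lt (by norm_num) (by linarith)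
    · have h2 := H_le_one (conv (max (3 / 8) (1 / 2 - (r - (1 - H δ)) / 4)) δ)
      have h3 := le_max_right (3 / 8 : ℝ) (1 / 2 - (r - (1 - H δ)) / 4)
      linarith
  refine ⟨⟨fun h => ?_, ?_⟩, ⟨fun h => ?_, ?_⟩, fun ω p hω0 hc hp2 =>
    quantitative h0 h1 hω0 hp2 hc⟩
  · obtain ⟨ω, a1, a2, a3⟩ := hω _ h
    exact ⟨ω, by linarith, a2, a3.trans_le (converse a1 a2).1⟩
  · rintro ⟨ω, a1, a2, a3⟩
    obtain ⟨p, b1, b2, b3⟩ := hp ω _ a2 a3
    have := (quantitative h0 h1 a1.le b2 b1).1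
    linarith
  · obtain ⟨ω, a1, a2, a3⟩ := hω _ h
    exact ⟨ω, by linarith, a2, a3.trans_le (converse a1 a2).2⟩
  · rintro ⟨ω, a1, a2, a3⟩
    obtain ⟨p, b1, b2, b3⟩ := hp ω _ a2 a3
    have := (quantitative h0 h1 a1.le b2 b1).2
    linarith

end Pool.Agent.Results.MP_0430e4_lc.ConstantWeightCriterion
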