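import Pool.Agent.R572.SE.Main

/-!
# Binary codes with fast encoders of small memory and with slow heads have small distance

An encoder is a nonuniform program which reads a message of `K` bits with `k` two-way heads, which
move by at most one position in a step, and which writes the code word of `n` bits, in each step at
most one bit, at any place; it has at most `2 ^ S` configurations (contents of its memory and
positions of the heads) and makes `T` steps (`T ≤ 2 ^ S`; after `2 ^ S` steps it would be in a loop).
We show `d K ^ 2 ≤ 1152 k ^ 2 (S + 1) (T + K) ^ 2` for the minimum distance `d` of the code.  So codes
with rate `R > 0` and relative distance `δ > 0` need encoding time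
`T + K ≥ R (δ / (1152 (S + 1))) ^ (1 / 2) n ^ (3 / 2) / k`: restricted to the codes with encoders with
`k ^ 2 (S + 1) T ^ 2 = o(n ^ 3)` the rate function of the problem is zero.

Proof. Divide the message in zones of `λ` bits and the computation in windows of `λ` steps; in a
window only `3 k` zones are touched.  So some zone is touched in at most `V = O(k (T + K) / K)`
windows for half of the messages.  If `λ` is larger than `(3 S + 2) V + 1` then two messages differ
only in this zone, and their computations have the same configurations at the borders of these
windows.  Then the code words differ only at places written in these windows, that is in at most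
`2 λ V` places.
-/

set_option autoImplicit false

namespace Pool.Agent.Results.MP_0430e4_lc.SlowEncoders

open Pool.Agent.R572.SE

/-- Let `P` be a program with `k ≥ 1` two-way heads on messages of `K` bits, which writes words of `n`
bits, with at most `2 ^ S` configurations, and let `T ≤ 2 ^ S`.  If the words written in `T` steps
for any two different messages differ in at least `d` places, then
`d * K ^ 2 ≤ 1152 * k ^ 2 * (S + 1) * (T + K) ^ 2`. -/
theorem result (K n k T S d : ℕ) (P : Enc K n k) (hk : 1 ≤ k)
    (hS : Fintype.card P.Q * K ^ k ≤ 2 ^ S) (hT : T ≤ 2 ^ S)
    (hd : ∀ x y : Fin K → Bool, x ≠ y → d ≤ hammingDist (P.tape x T) (P.tape y T)) :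
    d * K ^ 2 ≤ 1152 * (k ^ 2 * (S + 1) * (T + K) ^ 2) :=
  main K n k T S d P hk hS hT hd

end Pool.Agent.Results.MP_0430e4_lc.SlowEncoders
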